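import Pool.Agent.H24R2.JP.Polys

/-!
Limits of polynomials with zeros in the parabola region: once a derivative has no zeros in the unit disc,
no later derivative vanishes at `0`.
-/

set_option autoImplicit false

namespace Pool.Agent.TH231.LG

open Complex Filter Topology Polynomial Set
open Pool.Agent.H24R2.JP (Par)

/-- `P` approximates `F` locally uniformly and has its roots in `Par`. -/
def AppC (F : ℂ → ℂ) (P : ℕ → ℂ[X]) : Prop :=
  (∀ (N : ℕ) (x : ℂ), (P N).eval x = 0 → x ∈ Par) ∧
    TendstoLocallyUniformly (fun (N : ℕ) (x : ℂ) => (P N).eval x) F atTop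

theorem appC_der {F : ℂ → ℂ} {P : ℕ → ℂ[X]}
    (h : TendstoLocallyUniformly (fun (N : ℕ) (x : ℂ) => (P N).eval x) F atTop) (n : ℕ) :
    TendstoLocallyUniformly (fun (N : ℕ) (x : ℂ) => (derivative^[n] (P N)).eval x)
      (iteratedDeriv n F) atTop := by
  induction n with
  | zero => simpa using h
  | succ n ih =>
    rw [← tendstoLocallyUniformlyOn_univ] at ih ⊢
    have h1 := ih.deriv (Eventually.of_forall fun N => by
      apply Differentiable.differentiableOn
      exact (derivative^[n] (P N)).differentiable) isOpen_univ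
    have h2 : (deriv ∘ fun (N : ℕ) (x : ℂ) => (derivative^[n] (P N)).eval x) =
        fun (N : ℕ) (x : ℂ) => (derivative^[n + 1] (P N)).eval x := by
      funext N x
      rw [Function.comp_apply, Polynomial.deriv, Function.iterate_succ_apply']
    rw [h2] at h1
    rwa [iteratedDeriv_succ]

theorem appC_diff {F : ℂ → ℂ} {P : ℕ → ℂ[X]}
    (h : TendstoLocallyUniformly (fun (N : ℕ) (x : ℂ) => (P N).eval x) F atTop) :
    Differentiable ℂ F := by
  rw [← tendstoLocallyUniformlyOn_univ] at h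
  have := h.differentiableOn (Eventually.of_forall fun N =>
    (P N).differentiable.differentiableOn) isOpen_univ
  exact differentiableOn_univ.1 this

theorem gl_conv {S : Set ℂ} (hS : Convex ℝ S) (P : ℂ[X]) (n : ℕ)
    (h : ∀ x : ℂ, P.eval x = 0 → x ∈ S) (hne : derivative^[n] P ≠ 0) :
    ∀ x : ℂ, (derivative^[n] P).eval x = 0 → x ∈ S := by
  induction n with
  | zero =>
    intro x hx
    exact h x hx
  | succ n ih =>
    intro x hx
    rw [Function.iterate_succ_apply'] at hne hx
    set Q := derivative^[n] P with hQ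
    have hQ0 : Q ≠ 0 := by
      intro h0
      rw [h0] at hne
      simp at hne
    have hd : 0 < Q.degree := by
      by_contra hcon
      push Not at hcon
      apply hne
      rw [eq_C_of_degree_le_zero hcon, derivative_C]
    have hmem : x ∈ Q.derivative.rootSet ℂ := by
      rw [mem_rootSet]
      refine ⟨hne, ?_⟩
      simpa using hx
    have h1 := rootSet_derivative_subset_convexHull_rootSet hd hmem
    refine convexHull_min ?_ hS h1
    intro z hz
    rw [mem_rootSet] at hz
    exact ih hQ0 z (by simpa using hz.2)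

/-- monotonicity of the modulus to the right of the roots -/
theorem mono_right (Q : ℂ[X]) (h : Q = 0 ∨ ∀ x : ℂ, Q.eval x = 0 → x.re ≤ -(1 / 2)) (s : ℝ) (hs : 0 ≤ s)
    (hs1 : s ≤ 1 / 2) : ‖Q.eval (-(s : ℂ))‖ ≤ ‖Q.eval 0‖ := by
  rcases h with h | h
  · rw [h]; simp
  rcases eq_or_ne Q 0 with h0 | h0
  · rw [h0]; simp
  have hroot : ∀ a ∈ Q.roots, a.re ≤ -(1 / 2) := fun a ha => h a ((mem_roots h0).1 ha)
  have key : ∀ m : Multiset ℂ, (∀ a ∈ m, a.re ≤ -(1 / 2)) →
      ‖((m.map fun a => X - C a).prod).eval (-(s : ℂ))‖ ≤ ‖((m.map fun a => X - C a).prod).eval 0‖ := by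
    intro m
    induction m using Multiset.induction_on with
    | empty => intro _; simp
    | cons a m ih =>
      intro hm
      rw [Multiset.map_cons, Multiset.prod_cons, eval_mul, eval_mul, norm_mul, norm_mul]
      have h1 := ih fun b hb => hm b (Multiset.mem_cons_of_mem hb)
      have h2 := hm a (Multiset.mem_cons_self a m)
      refine mul_le_mul ?_ h1 (norm_nonneg _) (norm_nonneg _)
      simp only [eval_sub, eval_X, eval_C]
      rw [← sq_le_sq₀ (norm_nonneg _) (norm_nonneg _), Complex.sq_norm, Complex.sq_norm,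
        Complex.normSq_apply, Complex.normSq_apply]
      simp only [Complex.sub_re, Complex.neg_re, Complex.ofReal_re, Complex.sub_im, Complex.neg_im,
        Complex.ofReal_im, Complex.zero_re, Complex.zero_im]
      nlinarith
  have hsp : Q = C Q.leadingCoeff * (Q.roots.map (fun a => X - C a)).prod :=
    (IsAlgClosed.splits Q).eq_prod_roots
  rw [hsp, eval_mul, eval_mul, norm_mul, norm_mul, eval_C, eval_C]
  exact mul_le_mul_of_nonneg_left (key _ hroot) (norm_nonneg _)

theorem par_out {x : ℂ} (h : x ∈ Par) (h1 : 1 < ‖x‖) : x.re ≤ -(1 / 2) := by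
  by_contra hc
  push Not at hc
  have h2 : x.re + x.im ^ 2 ≤ 1 / 4 := h
  have h3 : 1 < ‖x‖ ^ 2 := by nlinarith
  rw [Complex.sq_norm, Complex.normSq_apply] at h3
  nlinarith [sq_nonneg x.im]

/-- The chain. -/
theorem chain {F : ℂ → ℂ} {P : ℕ → ℂ[X]} (hA : AppC F P)
    (hnp : ∀ m : ℕ, ∃ Y : ℂ, iteratedDeriv m F Y ≠ 0) {n : ℕ}
    (hn : ∀ Y : ℂ, ‖Y‖ ≤ 1 → iteratedDeriv n F Y ≠ 0) {m : ℕ} (hm : n ≤ m) :
    iteratedDeriv m F 0 ≠ 0 := by
  intro h0
  have hd : Differentiable ℂ F := appC_diff hA.2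
  have hc : ∀ k : ℕ, Differentiable ℂ (iteratedDeriv k F) := fun k =>
    appC_diff (P := fun N => derivative^[k] (P N)) (appC_der hA.2 k)
  -- lower bound on the unit ball
  obtain ⟨c, hc0, hcb⟩ : ∃ c : ℝ, 0 < c ∧ ∀ Y : ℂ, ‖Y‖ ≤ 1 → c ≤ ‖iteratedDeriv n F Y‖ := by
    obtain ⟨Y0, hY0, hmin⟩ := (isCompact_closedBall (0 : ℂ) 1).exists_isMinOn
      ⟨0, by simp⟩ ((hc n).continuous.norm.continuousOn)
    refine ⟨‖iteratedDeriv n F Y0‖, norm_pos_iff.2 (hn Y0 (by simpa using hY0)), ?_⟩
    intro Y hY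
    exact hmin (by simpa using hY)
  have hun := (tendstoLocallyUniformly_iff_forall_isCompact.1 (appC_der hA.2 n))
    (Metric.closedBall (0 : ℂ) 1) (isCompact_closedBall _ _)
  rw [Metric.tendstoUniformlyOn_iff] at hun
  have hroots : ∀ᶠ N in atTop, ∀ x : ℂ, (derivative^[n] (P N)).eval x = 0 → x.re ≤ -(1 / 2) := by
    filter_upwards [hun c hc0] with N hN x hx
    have hne : derivative^[n] (P N) ≠ 0 := by
      intro h
      have h1 := hN 0 (by simp)
      rw [h, eval_zero, dist_zero_right] at h1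
      linarith [hcb 0 (by simp)]
    have hp := gl_conv Pool.Agent.H24R2.JP.PolysAux.convex_par (P N) n (hA.1 N) hne x hx
    refine par_out hp ?_
    by_contra hle
    push Not at hle
    have h1 := hN x (by simpa using hle)
    rw [hx, dist_zero_right] at h1
    linarith [hcb x hle]
  have hconvS : Convex ℝ {x : ℂ | x.re ≤ -(1 / 2)} := convex_halfSpace_re_le _
  have hmono : ∀ᶠ N in atTop, ∀ s : ℝ, 0 ≤ s → s ≤ 1 / 2 →
      ‖(derivative^[m] (P N)).eval (-(s : ℂ))‖ ≤ ‖(derivative^[m] (P N)).eval 0‖ := by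
    filter_upwards [hroots] with N hN s hs hs1
    obtain ⟨k, rfl⟩ := Nat.exists_eq_add_of_le hm
    rw [Nat.add_comm n k, Function.iterate_add_apply]
    apply mono_right _ _ s hs hs1
    rcases eq_or_ne (derivative^[k] (derivative^[n] (P N))) 0 with h | h
    · exact Or.inl h
    · exact Or.inr (gl_conv hconvS _ k hN h)
  have hlim : ∀ Y : ℂ, Tendsto (fun N => (derivative^[m] (P N)).eval Y) atTop
      (𝓝 (iteratedDeriv m F Y)) := fun Y =>
    (tendstoLocallyUniformlyOn_univ.2 (appC_der hA.2 m)).tendsto_at (Set.mem_univ Y)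
  have hz : ∀ s : ℝ, 0 ≤ s → s ≤ 1 / 2 → iteratedDeriv m F (-(s : ℂ)) = 0 := by
    intro s hs hs1
    have h1 := le_of_tendsto_of_tendsto (hlim (-(s : ℂ))).norm (hlim 0).norm
      (by filter_upwards [hmono] with N hN using hN s hs hs1)
    rw [h0, norm_zero] at h1
    exact norm_le_zero_iff.1 h1
  obtain ⟨Y, hY⟩ := hnp m
  apply hY
  have han : AnalyticOnNhd ℂ (iteratedDeriv m F) univ := fun z _ => (hc m).analyticAt z
  have hfr : ∃ᶠ z in 𝓝[≠] (0 : ℂ), iteratedDeriv m F z = 0 := by
    rw [frequently_iff]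
    intro U hU
    rw [mem_nhdsWithin] at hU
    obtain ⟨V, hV1, hV2, hV3⟩ := hU
    obtain ⟨r, hr, hr2⟩ := Metric.isOpen_iff.1 hV1 0 hV2
    refine ⟨-((min (r / 2) (1 / 2) : ℝ) : ℂ), ?_, hz _ (by positivity) (min_le_right _ _)⟩
    have hp : 0 < min (r / 2) (1 / 2) := by positivity
    apply hV3
    constructor
    · apply hr2
      rw [Metric.mem_ball, dist_zero_right, norm_neg, Complex.norm_real, Real.norm_eq_abs,
        abs_of_pos hp]
      linarith [min_le_left (r / 2) (1 / 2 : ℝ)]
    · simp only [mem_compl_iff, mem_singleton_iff, neg_eq_zero, Complex.ofReal_eq_zero]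
      exact hp.ne'
  have := han.eqOn_zero_of_preconnected_of_frequently_eq_zero isPreconnected_univ (mem_univ 0) hfr
  exact this (mem_univ Y)

end Pool.Agent.TH231.LG
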