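import Mathlib

/-!
Entire functions of small growth: some derivative has no zeros in the unit disc; stability in a parameter.
-/

set_option autoImplicit false

namespace Pool.Agent.TH231.LG

open Complex Filter Topology Set

theorem iter_iter (f : ℂ → ℂ) (j n : ℕ) : iteratedDeriv j (iteratedDeriv n f) = iteratedDeriv (j + n) f := by
  rw [iteratedDeriv_eq_iterate, iteratedDeriv_eq_iterate, iteratedDeriv_eq_iterate,
    Function.iterate_add_apply]

theorem iter_diff {f : ℂ → ℂ} (hf : Differentiable ℂ f) (n : ℕ) : Differentiable ℂ (iteratedDeriv n f) := by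
  have h : ContDiff ℂ (n + 1 : ℕ) f := hf.contDiff
  exact h.differentiable_iteratedDeriv n (by exact_mod_cast Nat.lt_succ_self n)

/-- Small growth gives a derivative without zeros in the unit disc. -/
theorem whit {F : ℂ → ℂ} (hF : Differentiable ℂ F) {C : ℝ}
    (hC : ∀ Y, ‖F Y‖ ≤ C * Real.exp (‖Y‖ / 8)) (h0 : ∃ Y, F Y ≠ 0) :
    ∃ n : ℕ, ∀ Y : ℂ, ‖Y‖ ≤ 1 → iteratedDeriv n F Y ≠ 0 := by
  have hC0 : 0 ≤ C := by
    have h1 := (norm_nonneg _).trans (hC 0)
    have h2 : 0 < Real.exp (‖(0 : ℂ)‖ / 8) := Real.exp_pos _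
    by_contra hneg
    push Not at hneg
    nlinarith
  -- the coefficients
  set b : ℕ → ℝ := fun k => ‖iteratedDeriv k F 0‖ * 2 ^ k with hb
  have hb0 : ∀ k, 0 ≤ b k := fun k => by positivity
  have hexp2 : Real.exp (1 / 2) < 2 := by
    have h1 : Real.exp (1 / 2) ^ 2 = Real.exp 1 := by
      rw [← Real.exp_nat_mul]
      norm_num
    have h2 := Real.exp_one_lt_d9
    nlinarith [Real.exp_pos (1 / 2 : ℝ)]
  have hbk : ∀ k : ℕ, 1 ≤ k → b k ≤ C * (Real.exp (1 / 2) / 2) ^ k := by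
    intro k hk
    have hk0 : (0 : ℝ) < k := by exact_mod_cast hk
    have h1 := norm_iteratedDeriv_le_of_forall_mem_sphere_norm_le (f := F) (c := 0) (R := 4 * k)
      (C := C * Real.exp (k / 2)) k (by positivity) hF.diffContOnCl (by
        intro z hz
        rw [mem_sphere_zero_iff_norm] at hz
        refine (hC z).trans ?_
        rw [hz]
        have : (4 * (k : ℝ)) / 8 = k / 2 := by ring
        rw [this])
    have h2 : (k.factorial : ℝ) ≤ (k : ℝ) ^ k := by exact_mod_cast Nat.factorial_le_pow k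
    have h3 : Real.exp ((k : ℝ) / 2) = Real.exp (1 / 2) ^ k := by
      rw [← Real.exp_nat_mul]
      congr 1
      ring
    calc b k = ‖iteratedDeriv k F 0‖ * 2 ^ k := rfl
      _ ≤ (k.factorial * (C * Real.exp (k / 2)) / (4 * k) ^ k) * 2 ^ k := by gcongr
      _ ≤ ((k : ℝ) ^ k * (C * Real.exp (k / 2)) / (4 * k) ^ k) * 2 ^ k := by gcongr
      _ = C * (Real.exp (1 / 2) / 2) ^ k := by
          rw [h3, mul_pow, div_pow]
          have : (4 : ℝ) ^ k = 2 ^ k * 2 ^ k := by
            rw [← mul_pow]; norm_num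
          rw [this]
          field_simp
  have hbt : Tendsto b atTop (𝓝 0) := by
    have h1 : Tendsto (fun k : ℕ => C * (Real.exp (1 / 2) / 2) ^ k) atTop (𝓝 0) := by
      have := (tendsto_pow_atTop_nhds_zero_of_lt_one (r := Real.exp (1 / 2) / 2) (by positivity)
        (by linarith)).const_mul C
      simpa using this
    refine squeeze_zero' (Eventually.of_forall hb0) ?_ h1
    filter_upwards [eventually_ge_atTop 1] with k hk using hbk k hk
  obtain ⟨k0, hk0⟩ : ∃ k, 0 < b k := by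
    by_contra hcon
    push Not at hcon
    obtain ⟨Y, hY⟩ := h0
    apply hY
    have h1 := hasSum_taylorSeries_of_entire hF 0 Y
    have h2 : ∀ n : ℕ, (n.factorial : ℂ)⁻¹ • (Y - 0) ^ n • iteratedDeriv n F 0 = 0 := by
      intro n
      have h3 : b n = 0 := le_antisymm (hcon n) (hb0 n)
      have h4 : ‖iteratedDeriv n F 0‖ = 0 := by
        rcases mul_eq_zero.1 h3 with h | h
        · exact h
        · exact absurd h (by positivity)
      rw [norm_eq_zero.1 h4]
      simp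
    simp only [h2] at h1
    exact h1.unique hasSum_zero
  obtain ⟨K, hK⟩ := eventually_atTop.1 (hbt.eventually (gt_mem_nhds hk0))
  obtain ⟨n, hn1, hn2⟩ := Finset.exists_max_image (Finset.range (K + k0 + 1)) b ⟨0, by simp⟩
  have hmax : ∀ k, b k ≤ b n := by
    intro k
    rcases lt_or_ge k (K + k0 + 1) with h | h
    · exact hn2 k (Finset.mem_range.2 h)
    · exact (hK k (by omega)).le.trans (hn2 k0 (Finset.mem_range.2 (by omega)))
  have hbn : 0 < b n := lt_of_lt_of_le hk0 (hmax k0)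
  have han : 0 < ‖iteratedDeriv n F 0‖ := by
    rcases (norm_nonneg (iteratedDeriv n F 0)).lt_or_eq with h | h
    · exact h
    · simp only [hb, ← h, zero_mul, lt_self_iff_false] at hbn
  have hj : ∀ j : ℕ, ‖iteratedDeriv (j + n) F 0‖ ≤ ‖iteratedDeriv n F 0‖ * (1 / 2) ^ j := by
    intro j
    have h1 := hmax (j + n)
    simp only [hb] at h1
    rw [pow_add, ← mul_assoc] at h1
    have h2 := le_of_mul_le_mul_right h1 (by positivity)
    rw [one_div, inv_pow, ← div_eq_mul_inv, le_div_iff₀ (by positivity)]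
    exact h2
  refine ⟨n, fun Y hY hz => ?_⟩
  have hs := hasSum_taylorSeries_of_entire (iter_diff hF n) 0 Y
  rw [hz] at hs
  have hs1 := (hasSum_nat_add_iff' 1).2 hs
  have he := NormedSpace.expSeries_div_hasSum_exp (1 / 2 : ℝ)
  rw [← Real.exp_eq_exp_ℝ] at he
  have he1 := ((hasSum_nat_add_iff' 1).2 he).mul_left ‖iteratedDeriv n F 0‖
  have hle := tsum_of_norm_bounded he1 (f := fun j : ℕ => ((j + 1).factorial : ℂ)⁻¹ • (Y - 0) ^ (j + 1) •
    iteratedDeriv (j + 1) (iteratedDeriv n F) 0) (by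
      intro j
      rw [norm_smul, norm_smul, norm_inv, norm_pow, sub_zero, iter_iter, Complex.norm_natCast]
      have h1 : ‖Y‖ ^ (j + 1) ≤ 1 := pow_le_one₀ (norm_nonneg _) hY
      calc ((j + 1).factorial : ℝ)⁻¹ * (‖Y‖ ^ (j + 1) * ‖iteratedDeriv (j + 1 + n) F 0‖)
          ≤ ((j + 1).factorial : ℝ)⁻¹ * (1 * (‖iteratedDeriv n F 0‖ * (1 / 2) ^ (j + 1))) := by
            gcongr
            exact hj (j + 1)
        _ = _ := by ring)
  rw [hs1.tsum_eq] at hle
  simp only [Finset.range_one, Finset.sum_singleton, Nat.factorial_zero, Nat.cast_one, inv_one, pow_zero,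
    one_smul, iteratedDeriv_zero, zero_sub, norm_neg, div_one] at hle
  nlinarith

/-- stability in a parameter -/
theorem stab {Φ : ℝ → ℂ → ℂ} (hΦ : ∀ t, Differentiable ℂ (Φ t)) {t0 : ℝ}
    (hu : TendstoUniformlyOn Φ (Φ t0) (𝓝 t0) (Metric.closedBall (0 : ℂ) 2)) {n : ℕ}
    (hn : ∀ Y : ℂ, ‖Y‖ ≤ 1 → iteratedDeriv n (Φ t0) Y ≠ 0) :
    ∀ᶠ t in 𝓝 t0, ∀ Y : ℂ, ‖Y‖ ≤ 1 → iteratedDeriv n (Φ t) Y ≠ 0 := by
  obtain ⟨c, hc0, hcb⟩ : ∃ c : ℝ, 0 < c ∧ ∀ Y : ℂ, ‖Y‖ ≤ 1 → c ≤ ‖iteratedDeriv n (Φ t0) Y‖ := by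
    obtain ⟨Y0, hY0, hmin⟩ := (isCompact_closedBall (0 : ℂ) 1).exists_isMinOn
      ⟨0, by simp⟩ ((iter_diff (hΦ t0) n).continuous.norm.continuousOn)
    refine ⟨‖iteratedDeriv n (Φ t0) Y0‖, norm_pos_iff.2 (hn Y0 (by simpa using hY0)), ?_⟩
    intro Y hY
    exact hmin (by simpa using hY)
  rw [Metric.tendstoUniformlyOn_iff] at hu
  have hf : (0 : ℝ) < n.factorial := by exact_mod_cast n.factorial_pos
  filter_upwards [hu (c / (2 * n.factorial)) (by positivity)] with t ht Y hY hz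
  have h1 := norm_iteratedDeriv_le_of_forall_mem_sphere_norm_le (f := fun w => Φ t0 w - Φ t w) (c := Y)
    (R := 1) (C := c / (2 * n.factorial)) n one_pos ((hΦ t0).sub (hΦ t)).diffContOnCl (by
      intro w hw
      rw [mem_sphere_iff_norm] at hw
      have h2 : w ∈ Metric.closedBall (0 : ℂ) 2 := by
        rw [mem_closedBall_zero_iff]
        calc ‖w‖ = ‖(w - Y) + Y‖ := by ring_nf
          _ ≤ ‖w - Y‖ + ‖Y‖ := norm_add_le _ _
          _ ≤ 2 := by linarith
      have h3 := ht w h2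
      rw [dist_eq_norm] at h3
      exact h3.le)
  have h4 : iteratedDeriv n (fun w => Φ t0 w - Φ t w) Y = iteratedDeriv n (Φ t0) Y := by
    have h5 := iteratedDeriv_fun_sub (n := n) (f := Φ t0) (g := Φ t) (x := Y)
      ((hΦ t0).contDiff.contDiffAt) ((hΦ t).contDiff.contDiffAt)
    rw [h5, hz, sub_zero]
  rw [h4] at h1
  have h5 := hcb Y hY
  have h6 : (n.factorial : ℝ) * (c / (2 * n.factorial)) / 1 ^ n = c / 2 := by
    field_simp
    simp
  rw [h6] at h1
  linarith

end Pool.Agent.TH231.LG
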