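import Pool.Agent.H24R2.JP.B1
import Pool.Agent.H24R2.JP.Zeros
import Pool.Agent.TH231.LG.Chain
import Pool.Agent.TH231.LG.Whit

/-!
The functions `G_t(u) = XX(it+u) XX(it-u) = F_t(u^2)`, their Taylor coefficients and polynomial approximants.
-/

set_option autoImplicit false

namespace Pool.Agent.TH231.LG

open Complex Filter Topology Polynomial Set
open Pool.Agent.H24R2.JP (XX HH Om FF Par gam)

/-- The product `XX(it+u) XX(it-u)`, an even entire function of `u`. -/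
noncomputable def Gt (t : ℝ) (u : ℂ) : ℂ := XX (I * t + u) * XX (I * t - u)

/-- `Ft t (u ^ 2) = Gt t u`. -/
noncomputable def Ft (t : ℝ) (Y : ℂ) : ℂ := Gt t (Y ^ (((2 : ℕ) : ℂ)⁻¹))

/-- The coefficient of `u ^ (2 n)` in `Gt t u`. -/
noncomputable def LL (n : ℕ) (t : ℝ) : ℂ := iteratedDeriv (2 * n) (Gt t) 0 / ((2 * n).factorial : ℂ)

theorem XX_diff : Differentiable ℂ XX := Pool.Agent.H24R2.JP.B1h.XX_diff

theorem Gt_neg (t : ℝ) (u : ℂ) : Gt t (-u) = Gt t u := by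
  unfold Gt
  have e1 : I * (t : ℂ) + -u = I * t - u := by ring
  have e2 : I * (t : ℂ) - -u = I * t + u := by ring
  rw [e1, e2, mul_comm]

theorem Gt_diff (t : ℝ) : Differentiable ℂ (Gt t) := by
  have h1 : Differentiable ℂ fun u : ℂ => XX (I * t + u) := XX_diff.comp (differentiable_id.const_add _)
  have h2 : Differentiable ℂ fun u : ℂ => XX (I * t - u) := XX_diff.comp (differentiable_id.const_sub _)
  exact h1.mul h2

theorem rt_sq (Y : ℂ) : (Y ^ (((2 : ℕ) : ℂ)⁻¹)) ^ 2 = Y := Complex.cpow_nat_inv_pow Y two_ne_zero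

theorem Ft_sq (t : ℝ) (u : ℂ) : Ft t (u ^ 2) = Gt t u := by
  have h := rt_sq (u ^ 2)
  unfold Ft
  rcases sq_eq_sq_iff_eq_or_eq_neg.1 h with h1 | h1
  · rw [h1]
  · rw [h1, Gt_neg]

theorem Gt_FF (t : ℝ) (u : ℂ) : Gt t u = FF ((I * t + u) ^ 2) * FF ((I * t - u) ^ 2) := by
  unfold Gt
  rw [Pool.Agent.H24R2.JP.B1h.FF_sq, Pool.Agent.H24R2.JP.B1h.FF_sq]

theorem Gt_sym (t : ℝ) (u : ℂ) : Gt (-t) u = Gt t u := by
  unfold Gt
  have e1 : I * ((-t : ℝ) : ℂ) + u = -(I * t - u) := by push_cast; ring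
  have e2 : I * ((-t : ℝ) : ℂ) - u = -(I * t + u) := by push_cast; ring
  rw [e1, e2, Pool.Agent.H24R2.JP.B1h.XX_neg, Pool.Agent.H24R2.JP.B1h.XX_neg, mul_comm]

theorem LL_neg (n : ℕ) (t : ℝ) : LL n (-t) = LL n t := by
  unfold LL
  have : Gt (-t) = Gt t := funext (Gt_sym t)
  rw [this]

theorem conj_It (t : ℝ) : (starRingEnd ℂ) (I * t) = -(I * t) := by
  rw [map_mul, Complex.conj_I, Complex.conj_ofReal]
  ring

theorem Gt_conj (t : ℝ) (u : ℂ) : Gt t ((starRingEnd ℂ) u) = (starRingEnd ℂ) (Gt t u) := by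
  unfold Gt
  rw [map_mul, ← Pool.Agent.H24R2.JP.B1h.XX_conj, ← Pool.Agent.H24R2.JP.B1h.XX_conj, map_add, map_sub,
    conj_It]
  have e1 : -(I * (t : ℂ)) + (starRingEnd ℂ) u = -(I * t - (starRingEnd ℂ) u) := by ring
  have e2 : -(I * (t : ℂ)) - (starRingEnd ℂ) u = -(I * t + (starRingEnd ℂ) u) := by ring
  rw [e1, e2, Pool.Agent.H24R2.JP.B1h.XX_neg, Pool.Agent.H24R2.JP.B1h.XX_neg, mul_comm]

theorem iter_real (t : ℝ) (n : ℕ) : ((iteratedDeriv n (Gt t) 0).re : ℂ) = iteratedDeriv n (Gt t) 0 := by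
  have h := Pool.Agent.H24R2.JP.B1h.iter_conj (Gt t) (Gt_conj t) n 0
  rw [map_zero] at h
  exact Complex.conj_eq_iff_re.1 h.symm

theorem LL_real (n : ℕ) (t : ℝ) : (((LL n t).re : ℝ) : ℂ) = LL n t := by
  unfold LL
  rw [← iter_real t (2 * n)]
  have : (((iteratedDeriv (2 * n) (Gt t) 0).re : ℝ) : ℂ) / ((2 * n).factorial : ℂ) =
      (((iteratedDeriv (2 * n) (Gt t) 0).re / ((2 * n).factorial : ℝ) : ℝ) : ℂ) := by push_cast; rfl
  rw [this, Complex.ofReal_re]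

theorem odd_zero (t : ℝ) (k : ℕ) : iteratedDeriv (2 * k + 1) (Gt t) 0 = 0 := by
  have h := iteratedDeriv_comp_neg (2 * k + 1) (Gt t) 0
  have e : (fun x => Gt t (-x)) = Gt t := funext (Gt_neg t)
  rw [e, neg_zero, pow_succ, pow_mul] at h
  simp at h
  linear_combination (1 / 2 : ℂ) * h

theorem hasSum_Gt (t : ℝ) (u : ℂ) : HasSum (fun n : ℕ => LL n t * (u ^ 2) ^ n) (Gt t u) := by
  have h := hasSum_taylorSeries_of_entire (Gt_diff t) 0 u
  have hinj : Function.Injective (fun k : ℕ => 2 * k) := fun a b hab => by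
    have : 2 * a = 2 * b := hab
    omega
  rw [← hinj.hasSum_iff] at h
  · refine Pool.Agent.H24R2.JP.B1h.hcongr h fun k => ?_
    show _ = (((2 * k).factorial : ℂ))⁻¹ • (u - 0) ^ (2 * k) • iteratedDeriv (2 * k) (Gt t) 0
    unfold LL
    rw [smul_eq_mul, smul_eq_mul, sub_zero, pow_mul]
    ring
  · intro x hx
    have hodd : ∃ k, x = 2 * k + 1 := by
      rcases Nat.even_or_odd' x with ⟨k, hk | hk⟩
      · exact absurd ⟨k, hk.symm⟩ hx
      · exact ⟨k, hk⟩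
    obtain ⟨k, rfl⟩ := hodd
    rw [odd_zero, smul_zero, smul_zero]

theorem hasSum_Ft (t : ℝ) (Y : ℂ) : HasSum (fun n : ℕ => LL n t * Y ^ n) (Ft t Y) := by
  have h := hasSum_Gt t (Y ^ (((2 : ℕ) : ℂ)⁻¹))
  rw [rt_sq] at h
  exact h

/-- the power series -/
noncomputable def psF (d : ℕ → ℂ) : FormalMultilinearSeries ℂ ℂ ℂ := FormalMultilinearSeries.ofScalars ℂ d

theorem psF_apply (d : ℕ → ℂ) (n : ℕ) (x : ℂ) : psF d n (fun _ => x) = d n * x ^ n := by
  unfold psF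
  rw [FormalMultilinearSeries.ofScalars_apply_eq, smul_eq_mul]

theorem coeff_of_hasSum {F : ℂ → ℂ} {d : ℕ → ℂ} (h : ∀ Y, HasSum (fun n : ℕ => d n * Y ^ n) (F Y)) :
    Differentiable ℂ F ∧ ∀ n, iteratedDeriv n F 0 = (n.factorial : ℂ) * d n := by
  have hnorm : ∀ n, ‖psF d n‖ = ‖d n‖ := fun n =>
    FormalMultilinearSeries.ofScalars_norm (𝕜 := ℂ) (E := ℂ) d n
  have hrad : (psF d).radius = ⊤ := by
    refine FormalMultilinearSeries.radius_eq_top_of_summable_norm _ fun r => ?_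
    have h := (h ((r : ℝ) : ℂ)).summable.norm
    refine h.congr fun n => ?_
    rw [hnorm, norm_mul, norm_pow]
    simp
  have hps : HasFPowerSeriesOnBall F (psF d) 0 ⊤ := by
    refine ⟨by rw [hrad], by simp, ?_⟩
    intro y _
    rw [zero_add]
    simp only [psF_apply]
    exact h y
  refine ⟨fun x => hps.differentiableOn.differentiableAt (by simp), fun n => ?_⟩
  have h := hps.factorial_smul 1 n
  rw [← iteratedDeriv_eq_iteratedFDeriv, psF_apply, one_pow, mul_one, nsmul_eq_mul] at h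
  exact h.symm

theorem Ft_diff (t : ℝ) : Differentiable ℂ (Ft t) := (coeff_of_hasSum (hasSum_Ft t)).1

theorem Ft_iter (t : ℝ) (n : ℕ) : iteratedDeriv n (Ft t) 0 = (n.factorial : ℂ) * LL n t :=
  (coeff_of_hasSum (hasSum_Ft t)).2 n

/-! ## Approximants -/

/-- The polynomial with the value `p((it+u)^2) p((it-u)^2)` at `u^2`. -/
noncomputable def Qp (t : ℝ) (p : ℝ[X]) : ℂ[X] :=
  C ((p.leadingCoeff : ℂ) ^ 2) *
    ((p.map (algebraMap ℝ ℂ)).roots.map fun a => (X - C ((t : ℂ) ^ 2 + a)) ^ 2 + C (4 * (t : ℂ) ^ 2) * X).prod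

theorem Qp_eval (t : ℝ) (p : ℝ[X]) (u : ℂ) :
    (Qp t p).eval (u ^ 2) = aeval ((I * t + u) ^ 2) p * aeval ((I * t - u) ^ 2) p := by
  have hI : I ^ 2 = -1 := Complex.I_sq
  have key : ∀ m : Multiset ℂ,
      ((m.map fun a => (X - C ((t : ℂ) ^ 2 + a)) ^ 2 + C (4 * (t : ℂ) ^ 2) * X).prod).eval (u ^ 2) =
      ((m.map fun a => X - C a).prod).eval ((I * t + u) ^ 2) *
        ((m.map fun a => X - C a).prod).eval ((I * t - u) ^ 2) := by
    intro m
    induction m using Multiset.induction_on with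
    | empty => simp
    | cons a m ih =>
      rw [Multiset.map_cons, Multiset.prod_cons, Multiset.map_cons, Multiset.prod_cons, eval_mul, eval_mul,
        eval_mul, ih]
      have : ((X - C ((t : ℂ) ^ 2 + a)) ^ 2 + C (4 * (t : ℂ) ^ 2) * X).eval (u ^ 2) =
          (X - C a).eval ((I * t + u) ^ 2) * (X - C a).eval ((I * t - u) ^ 2) := by
        simp only [eval_add, eval_pow, eval_sub, eval_X, eval_C, eval_mul]
        linear_combination (-(t : ℂ) ^ 2 * (2 * u ^ 2 - 2 * a - (t : ℂ) ^ 2 + I ^ 2 * (t : ℂ) ^ 2) +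
          4 * (t : ℂ) ^ 2 * u ^ 2) * hI
      rw [this]
      ring
  have hsp : p.map (algebraMap ℝ ℂ) = C (p.map (algebraMap ℝ ℂ)).leadingCoeff *
      ((p.map (algebraMap ℝ ℂ)).roots.map (fun a => X - C a)).prod :=
    (IsAlgClosed.splits _).eq_prod_roots
  have hlc : (p.map (algebraMap ℝ ℂ)).leadingCoeff = (p.leadingCoeff : ℂ) := by
    rw [leadingCoeff_map]
    rfl
  rw [hlc] at hsp
  have hev : ∀ w : ℂ, aeval w p = (p.leadingCoeff : ℂ) *
      (((p.map (algebraMap ℝ ℂ)).roots.map (fun a => X - C a)).prod).eval w := by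
    intro w
    rw [← eval_map_algebraMap]
    conv_lhs => rw [hsp]
    rw [eval_mul, eval_C]
  unfold Qp
  rw [eval_mul, eval_C, key, hev, hev]
  ring

theorem par_iff (z : ℂ) : z ^ 2 ∈ Par ↔ |z.re| ≤ 1 / 2 := by
  show (z ^ 2).re + (z ^ 2).im ^ 2 ≤ 1 / 4 ↔ _
  have hre : (z ^ 2).re = z.re ^ 2 - z.im ^ 2 := by
    rw [pow_two, Complex.mul_re]; ring
  have him : (z ^ 2).im = 2 * z.re * z.im := by
    rw [pow_two, Complex.mul_im]; ring
  rw [hre, him]
  have e : z.re ^ 2 - z.im ^ 2 + (2 * z.re * z.im) ^ 2 - 1 / 4 = (z.re ^ 2 - 1 / 4) * (1 + 4 * z.im ^ 2) := by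
    ring
  constructor
  · intro h
    have h1 : (z.re ^ 2 - 1 / 4) * (1 + 4 * z.im ^ 2) ≤ 0 := by rw [← e]; linarith
    have h2 : z.re ^ 2 - 1 / 4 ≤ 0 := by
      by_contra hc
      push Not at hc
      have := mul_pos hc (by positivity : 0 < 1 + 4 * z.im ^ 2)
      linarith
    rw [abs_le]
    constructor <;> nlinarith
  · intro h
    have h1 : z.re ^ 2 ≤ 1 / 4 := by
      have := abs_le.1 h
      nlinarith [this.1, this.2]
    have h2 : (z.re ^ 2 - 1 / 4) * (1 + 4 * z.im ^ 2) ≤ 0 :=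
      mul_nonpos_of_nonpos_of_nonneg (by linarith) (by positivity)
    linarith

theorem Qp_roots (t : ℝ) (p : ℝ[X]) (h : ∀ x : ℂ, aeval x p = 0 → x ∈ Par) (x : ℂ)
    (hx : (Qp t p).eval x = 0) : x ∈ Par := by
  obtain ⟨u, rfl⟩ := IsAlgClosed.exists_pow_nat_eq x (n := 2) (by norm_num)
  rw [Qp_eval] at hx
  rw [par_iff]
  rcases mul_eq_zero.1 hx with h1 | h1
  · have h2 := (par_iff _).1 (h _ h1)
    simpa using h2
  · have h2 := (par_iff _).1 (h _ h1)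
    simpa using h2

theorem Qp_tendsto (t : ℝ) {P : ℕ → ℝ[X]}
    (h : TendstoLocallyUniformly (fun (N : ℕ) (x : ℂ) => aeval x (P N)) FF atTop) :
    TendstoLocallyUniformly (fun (N : ℕ) (x : ℂ) => (Qp t (P N)).eval x) (Ft t) atTop := by
  rw [tendstoLocallyUniformly_iff_forall_isCompact]
  intro K hK
  obtain ⟨R, hR⟩ := hK.isBounded.exists_norm_le
  obtain ⟨ρ, hρ⟩ : ∃ ρ : ℝ, ρ = (|t| + (1 + |R|)) ^ 2 := ⟨_, rfl⟩
  have hu := (tendstoLocallyUniformly_iff_forall_isCompact.1 h) (Metric.closedBall (0 : ℂ) ρ)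
    (isCompact_closedBall _ _)
  have hFc : Continuous FF := (Pool.Agent.H24R2.JP.b1.1).continuous
  obtain ⟨M, hM⟩ := (isCompact_closedBall (0 : ℂ) ρ).exists_bound_of_continuousOn hFc.continuousOn
  have hM0 : 0 ≤ M := (norm_nonneg _).trans (hM 0 (by
    rw [mem_closedBall_zero_iff, norm_zero, hρ]; positivity))
  rw [Metric.tendstoUniformlyOn_iff] at hu ⊢
  intro ε hε
  obtain ⟨δ, hδ⟩ : ∃ δ : ℝ, δ = min 1 (ε / (2 * M + 2)) := ⟨_, rfl⟩
  have hδ0 : 0 < δ := by rw [hδ]; positivity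
  have hδ1 : δ ≤ 1 := by rw [hδ]; exact min_le_left _ _
  have hδ2 : δ * (2 * M + 2) ≤ ε := by
    rw [← le_div_iff₀ (by positivity), hδ]
    exact min_le_right _ _
  filter_upwards [hu δ hδ0] with N hN Y hY
  obtain ⟨u, hu1⟩ : ∃ u : ℂ, u = Y ^ (((2 : ℕ) : ℂ)⁻¹) := ⟨_, rfl⟩
  have hu2 : u ^ 2 = Y := by rw [hu1]; exact rt_sq Y
  have hun : ‖u‖ ≤ 1 + |R| := by
    have h1 : ‖u‖ ^ 2 ≤ |R| := by
      rw [← norm_pow, hu2]
      exact (hR Y hY).trans (le_abs_self R)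
    nlinarith [norm_nonneg u, abs_nonneg R]
  have hw : ∀ s : ℂ, ‖s‖ ≤ |t| + ‖u‖ → s ^ 2 ∈ Metric.closedBall (0 : ℂ) ρ := by
    intro s hs
    rw [mem_closedBall_zero_iff, norm_pow, hρ]
    exact pow_le_pow_left₀ (norm_nonneg _) (by linarith) 2
  have hIt : ‖I * (t : ℂ)‖ = |t| := by
    rw [norm_mul, Complex.norm_I, one_mul, Complex.norm_real, Real.norm_eq_abs]
  have hw1 := hw (I * t + u) ((norm_add_le _ _).trans (by rw [hIt]))
  have hw2 := hw (I * t - u) ((norm_sub_le _ _).trans (by rw [hIt]))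
  rw [← hu2, Ft_sq, Gt_FF, Qp_eval, dist_eq_norm]
  have a1 := hN _ hw1
  have a2 := hN _ hw2
  rw [dist_eq_norm] at a1 a2
  have b1 := hM _ hw1
  have b2 := hM _ hw2
  generalize FF ((I * t + u) ^ 2) = f1 at *
  generalize FF ((I * t - u) ^ 2) = f2 at *
  generalize aeval ((I * (t : ℂ) + u) ^ 2) (P N) = p1 at *
  generalize aeval ((I * (t : ℂ) - u) ^ 2) (P N) = p2 at *
  have e : f1 * f2 - p1 * p2 = (f1 - p1) * f2 + f1 * (f2 - p2) - (f1 - p1) * (f2 - p2) := by ring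
  rw [e]
  calc ‖(f1 - p1) * f2 + f1 * (f2 - p2) - (f1 - p1) * (f2 - p2)‖
      ≤ ‖f1 - p1‖ * ‖f2‖ + ‖f1‖ * ‖f2 - p2‖ + ‖f1 - p1‖ * ‖f2 - p2‖ := by
        refine (norm_sub_le _ _).trans ?_
        rw [norm_mul (f1 - p1) (f2 - p2)]
        gcongr
        refine (norm_add_le _ _).trans ?_
        rw [norm_mul, norm_mul]
    _ ≤ δ * M + M * δ + δ * 1 := by
        have := norm_nonneg (f1 - p1)
        have := norm_nonneg (f2 - p2)
        have := norm_nonneg f1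
        have := norm_nonneg f2
        gcongr
        exact (a2.le.trans hδ1)
    _ < δ * (2 * M + 2) := by nlinarith
    _ ≤ ε := hδ2

end Pool.Agent.TH231.LG
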