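import Pool.Agent.H24R2.JP.All
import Pool.Agent.H24R2.DZ.XB
import Pool.Agent.TH231.LG.Base

/-!
Growth, compact ranges, the Riemann hypothesis, and the real function.
-/

set_option autoImplicit false

namespace Pool.Agent.TH231.LG

open Complex Filter Topology Polynomial Set
open Pool.Agent.H24R2.JP (XX HH Om FF Par gam)

theorem growth_aux (a c : ℝ) (ha : 0 ≤ a) (hc : 0 ≤ c) : ∃ B : ℝ, ∀ s : ℝ, 0 ≤ s →
    a * (c + 2 * s) ^ (3 / 4 : ℝ) ≤ s / 8 + B := by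
  refine ⟨c / 16 + a * (16 * a) ^ 3, fun s hs => ?_⟩
  obtain ⟨y, hy⟩ : ∃ y, y = (c + 2 * s) ^ (1 / 4 : ℝ) := ⟨_, rfl⟩
  have hx : 0 ≤ c + 2 * s := by positivity
  have hy0 : 0 ≤ y := by rw [hy]; positivity
  have h4 : y ^ 4 = c + 2 * s := by
    rw [hy, ← Real.rpow_natCast, ← Real.rpow_mul hx]; norm_num
  have h3 : (c + 2 * s) ^ (3 / 4 : ℝ) = y ^ 3 := by
    rw [hy, ← Real.rpow_natCast, ← Real.rpow_mul hx]; norm_num
  rw [h3]
  have hp : 0 ≤ a * (16 * a) ^ 3 := by positivity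
  rcases le_total y (16 * a) with h | h
  · have h5 : y ^ 3 ≤ (16 * a) ^ 3 := pow_le_pow_left₀ hy0 h 3
    have h6 := mul_le_mul_of_nonneg_left h5 ha
    linarith
  · have h5 := mul_le_mul_of_nonneg_right h (pow_nonneg hy0 3)
    have h6 : y * y ^ 3 = c + 2 * s := by rw [← h4]; ring
    rw [h6] at h5
    linarith

theorem Ft_growth (t : ℝ) : ∃ C : ℝ, ∀ Y : ℂ, ‖Ft t Y‖ ≤ C * Real.exp (‖Y‖ / 8) := by
  obtain ⟨K, hK⟩ := Pool.Agent.H24R2.JP.growT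
  obtain ⟨B, hB⟩ := growth_aux (2 * |K|) (1 + 2 * t ^ 2) (by positivity) (by positivity)
  refine ⟨Real.exp B, fun Y => ?_⟩
  obtain ⟨u, hu1⟩ : ∃ u : ℂ, u = Y ^ (((2 : ℕ) : ℂ)⁻¹) := ⟨_, rfl⟩
  have hu2 : u ^ 2 = Y := by rw [hu1]; exact rt_sq Y
  have hun : ‖u‖ ^ 2 = ‖Y‖ := by rw [← norm_pow, hu2]
  have hIt : ‖I * (t : ℂ)‖ = |t| := by
    rw [norm_mul, Complex.norm_I, one_mul, Complex.norm_real, Real.norm_eq_abs]
  have hw : ∀ s : ℂ, ‖s‖ ≤ |t| + ‖u‖ → ‖FF (s ^ 2)‖ ≤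
      Real.exp (|K| * ((1 + 2 * t ^ 2) + 2 * ‖Y‖) ^ (3 / 4 : ℝ)) := by
    intro s hs
    refine (hK _).trans (Real.exp_le_exp.2 ?_)
    have h1 : ‖s ^ 2‖ ≤ 2 * t ^ 2 + 2 * ‖Y‖ := by
      rw [norm_pow]
      have h2 := pow_le_pow_left₀ (norm_nonneg s) hs 2
      have h3 : |t| ^ 2 = t ^ 2 := sq_abs t
      nlinarith [sq_nonneg (|t| - ‖u‖)]
    calc K * (1 + ‖s ^ 2‖) ^ (3 / 4 : ℝ) ≤ |K| * (1 + ‖s ^ 2‖) ^ (3 / 4 : ℝ) := by
          gcongr
          exact le_abs_self K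
      _ ≤ |K| * ((1 + 2 * t ^ 2) + 2 * ‖Y‖) ^ (3 / 4 : ℝ) := by
          gcongr ?_ * ?_ ^ _
          linarith
  have hw1 := hw (I * t + u) ((norm_add_le _ _).trans (by rw [hIt]))
  have hw2 := hw (I * t - u) ((norm_sub_le _ _).trans (by rw [hIt]))
  rw [← hu2, Ft_sq, Gt_FF, norm_mul, hu2, ← Real.exp_add]
  calc ‖FF ((I * t + u) ^ 2)‖ * ‖FF ((I * t - u) ^ 2)‖
      ≤ Real.exp (|K| * ((1 + 2 * t ^ 2) + 2 * ‖Y‖) ^ (3 / 4 : ℝ)) *
        Real.exp (|K| * ((1 + 2 * t ^ 2) + 2 * ‖Y‖) ^ (3 / 4 : ℝ)) := by gcongr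
    _ = Real.exp (2 * |K| * ((1 + 2 * t ^ 2) + 2 * ‖Y‖) ^ (3 / 4 : ℝ)) := by
        rw [← Real.exp_add]; congr 1; ring
    _ ≤ Real.exp (B + ‖Y‖ / 8) := by
        apply Real.exp_le_exp.2
        have := hB ‖Y‖ (norm_nonneg _)
        linarith

theorem gam_low (t : ℝ) : ∃ c : ℝ, 0 < c ∧ ∀ j : ℕ, c * 2 ^ j ≤ ‖Gammaℝ (I * t + 14 + 2 * (j : ℂ))‖ := by
  refine ⟨‖Gammaℝ (I * t + 14)‖, norm_pos_iff.2 (Gammaℝ_ne_zero_of_re_pos (by simp)), fun j => ?_⟩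
  induction j with
  | zero => simp
  | succ j ih =>
    have hre : (I * t + 14 + 2 * (j : ℂ)).re = 14 + 2 * j := by simp
    have hne : (I * t + 14 + 2 * (j : ℂ)) ≠ 0 := by
      intro h
      rw [h] at hre
      simp only [Complex.zero_re] at hre
      have : (0 : ℝ) ≤ j := Nat.cast_nonneg j
      linarith
    have e : I * t + 14 + 2 * ((j + 1 : ℕ) : ℂ) = (I * t + 14 + 2 * (j : ℂ)) + 2 := by push_cast; ring
    rw [e, Gammaℝ_add_two hne, norm_div, norm_div, norm_mul, Complex.norm_real, Real.norm_eq_abs,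
      abs_of_pos Real.pi_pos, Complex.norm_ofNat]
    have h1 : (14 : ℝ) ≤ ‖I * t + 14 + 2 * (j : ℂ)‖ := by
      have h2 := Complex.abs_re_le_norm (I * t + 14 + 2 * (j : ℂ))
      rw [hre] at h2
      have : (0 : ℝ) ≤ j := Nat.cast_nonneg j
      have h3 := le_abs_self (14 + 2 * (j : ℝ))
      linarith
    rw [le_div_iff₀ Real.pi_pos, le_div_iff₀ two_pos]
    have hpi : Real.pi < 3.5 := by linarith [Real.pi_lt_d2]
    have h0 : 0 < ‖Gammaℝ (I * t + 14)‖ := norm_pos_iff.2 (Gammaℝ_ne_zero_of_re_pos (by simp))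
    calc ‖Gammaℝ (I * t + 14)‖ * 2 ^ (j + 1) * Real.pi * 2
        ≤ ‖Gammaℝ (I * t + 14)‖ * 2 ^ (j + 1) * 3.5 * 2 := by gcongr
      _ = (‖Gammaℝ (I * t + 14)‖ * 2 ^ j) * 14 := by ring
      _ ≤ _ := by gcongr

theorem XX_low (t : ℝ) : ∃ c : ℝ, 0 < c ∧ ∀ j : ℕ, c * 2 ^ j ≤ ‖XX (I * t + (27 / 2 + 2 * (j : ℂ)))‖ := by
  obtain ⟨c, hc, h⟩ := gam_low t
  refine ⟨c / 2, by positivity, fun j => ?_⟩
  have hj : (0 : ℝ) ≤ j := Nat.cast_nonneg j
  obtain ⟨z, hz⟩ : ∃ z : ℂ, z = I * t + (27 / 2 + 2 * (j : ℂ)) := ⟨_, rfl⟩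
  rw [← hz]
  have hs : (1 / 2 + z : ℂ) = I * t + 14 + 2 * (j : ℂ) := by rw [hz]; ring
  have hre : (1 / 2 + z : ℂ).re = 14 + 2 * j := by rw [hs]; simp
  have hzre : z.re = 27 / 2 + 2 * j := by
    rw [hz]
    simp
  have h1 : (1 / 2 + z : ℂ) ≠ 0 := by
    intro h0
    rw [h0] at hre
    simp only [Complex.zero_re] at hre
    linarith
  have h2 : (1 - (1 / 2 + z) : ℂ) ≠ 0 := by
    intro h0
    have h3 : (1 - (1 / 2 + z) : ℂ).re = 1 - (14 + 2 * j) := by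
      rw [Complex.sub_re, hre, Complex.one_re]
    rw [h0] at h3
    simp only [Complex.zero_re] at h3
    linarith
  rw [Pool.Agent.H24R2.JP.Zer.XX_eq z h1 h2]
  have h3 := riemannZeta_def_of_ne_zero h1
  have h4 : Gammaℝ (1 / 2 + z) ≠ 0 := Gammaℝ_ne_zero_of_re_pos (by rw [hre]; positivity)
  have h5 : completedRiemannZeta (1 / 2 + z) = Gammaℝ (1 / 2 + z) * riemannZeta (1 / 2 + z) := by
    rw [h3, mul_div_cancel₀ _ h4]
  rw [h5, norm_mul, norm_mul]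
  have h6 : 1 ≤ ‖4 * z ^ 2 - 1‖ := by
    have e : (4 * z ^ 2 - 1 : ℂ) = (2 * z - 1) * (2 * z + 1) := by ring
    rw [e, norm_mul]
    have a1 : 1 ≤ ‖2 * z - 1‖ := by
      have b := Complex.abs_re_le_norm (2 * z - 1)
      have b2 : (2 * z - 1 : ℂ).re = 2 * (27 / 2 + 2 * j) - 1 := by simp [hzre]
      rw [b2] at b
      have b3 := le_abs_self (2 * (27 / 2 + 2 * (j : ℝ)) - 1)
      linarith
    have a2 : 1 ≤ ‖2 * z + 1‖ := by
      have b := Complex.abs_re_le_norm (2 * z + 1)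
      have b2 : (2 * z + 1 : ℂ).re = 2 * (27 / 2 + 2 * j) + 1 := by simp [hzre]
      rw [b2] at b
      have b3 := le_abs_self (2 * (27 / 2 + 2 * (j : ℝ)) + 1)
      linarith
    nlinarith
  have h7 : c * 2 ^ j ≤ ‖Gammaℝ (1 / 2 + z)‖ := by
    rw [hs]
    exact h j
  have h8 : 1 / 2 ≤ ‖riemannZeta (1 / 2 + z)‖ :=
    (Pool.Agent.H24R2.DZ.XBAux.z2 (by rw [hre]; linarith)).1
  calc c / 2 * 2 ^ j = 1 * ((c * 2 ^ j) * (1 / 2)) := by ring
    _ ≤ ‖4 * z ^ 2 - 1‖ * (‖Gammaℝ (1 / 2 + z)‖ * ‖riemannZeta (1 / 2 + z)‖) := by gcongr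

theorem Gt_norm_real (t x : ℝ) : ‖Gt t (x : ℂ)‖ = ‖XX (I * t + x)‖ ^ 2 := by
  unfold Gt
  have h : XX (I * t - x) = (starRingEnd ℂ) (XX (I * t + x)) := by
    rw [← Pool.Agent.H24R2.JP.B1h.XX_conj, map_add, conj_It, Complex.conj_ofReal,
      ← Pool.Agent.H24R2.JP.B1h.XX_neg]
    congr 1
    ring
  rw [norm_mul, h, RCLike.norm_conj]
  ring

theorem nonpoly (t : ℝ) (m : ℕ) : ∃ Y : ℂ, iteratedDeriv m (Ft t) Y ≠ 0 := by
  by_contra hcon
  push Not at hcon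
  have hfun : iteratedDeriv m (Ft t) = fun _ => 0 := funext hcon
  have hLL : ∀ j, m ≤ j → LL j t = 0 := by
    intro j hj
    obtain ⟨k, rfl⟩ := Nat.exists_eq_add_of_le hj
    have h1 := Ft_iter t (m + k)
    rw [Nat.add_comm m k, ← iter_iter, hfun] at h1
    have h2 : iteratedDeriv k (fun _ : ℂ => (0 : ℂ)) 0 = 0 := by
      rw [iteratedDeriv_const]
      simp
    rw [h2] at h1
    rcases mul_eq_zero.1 h1.symm with h3 | h3
    · exact absurd h3 (by exact_mod_cast (k + m).factorial_ne_zero)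
    · rw [Nat.add_comm m k]
      exact h3
  obtain ⟨S, hS⟩ : ∃ S : ℝ, S = ∑ n ∈ Finset.range m, ‖LL n t‖ := ⟨_, rfl⟩
  have hbd : ∀ x : ℝ, 1 ≤ x → ‖Gt t (x : ℂ)‖ ≤ S * x ^ (2 * m) := by
    intro x hx
    have h1 := hasSum_Gt t (x : ℂ)
    have h2 : HasSum (fun n : ℕ => LL n t * ((x : ℂ) ^ 2) ^ n)
        (∑ n ∈ Finset.range m, LL n t * ((x : ℂ) ^ 2) ^ n) :=
      hasSum_sum_of_ne_finset_zero (fun n hn => by
        rw [Finset.mem_range, not_lt] at hn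
        rw [hLL n hn, zero_mul])
    rw [h1.unique h2]
    refine (norm_sum_le _ _).trans ?_
    rw [hS, Finset.sum_mul]
    apply Finset.sum_le_sum
    intro n hn
    rw [Finset.mem_range] at hn
    rw [norm_mul, norm_pow, norm_pow, Complex.norm_real, Real.norm_eq_abs, abs_of_pos (by linarith),
      ← pow_mul]
    have : x ^ (2 * n) ≤ x ^ (2 * m) := pow_le_pow_right₀ hx (by omega)
    gcongr
  obtain ⟨c, hc, hlow⟩ := XX_low t
  have hS0 : 0 ≤ S := by rw [hS]; exact Finset.sum_nonneg fun _ _ => norm_nonneg _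
  have hcmp : ∀ j : ℕ, c ^ 2 ≤ (S * 14 ^ (2 * m) * 4) * (((j + 1 : ℕ) : ℝ) ^ (2 * m) / 4 ^ (j + 1)) := by
    intro j
    have h1 := hbd (27 / 2 + 2 * j) (by
      have : (0 : ℝ) ≤ j := Nat.cast_nonneg j
      linarith)
    rw [Gt_norm_real] at h1
    have h2 := hlow j
    have e : ((27 / 2 + 2 * (j : ℝ) : ℝ) : ℂ) = 27 / 2 + 2 * (j : ℂ) := by push_cast; ring
    rw [e] at h1
    have h3 : (c * 2 ^ j) ^ 2 ≤ S * (27 / 2 + 2 * (j : ℝ)) ^ (2 * m) :=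
      (pow_le_pow_left₀ (by positivity) h2 2).trans h1
    have h4 : (27 / 2 + 2 * (j : ℝ)) ^ (2 * m) ≤ (14 * ((j + 1 : ℕ) : ℝ)) ^ (2 * m) := by
      apply pow_le_pow_left₀ (by positivity)
      push_cast
      have : (0 : ℝ) ≤ j := Nat.cast_nonneg j
      linarith
    have h5 : (c * 2 ^ j) ^ 2 ≤ S * (14 * ((j + 1 : ℕ) : ℝ)) ^ (2 * m) :=
      h3.trans (mul_le_mul_of_nonneg_left h4 hS0)
    have h6 : (c * 2 ^ j) ^ 2 = c ^ 2 * 4 ^ j := by
      rw [mul_pow, ← pow_mul, mul_comm j 2, pow_mul]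
      norm_num
    rw [h6, mul_pow] at h5
    rw [← mul_div_assoc, le_div_iff₀ (by positivity), pow_succ (4 : ℝ) j]
    linarith
  have hlim := ((tendsto_pow_const_div_const_pow_of_one_lt (2 * m) (r := (4 : ℝ)) (by norm_num)).comp
    (tendsto_add_atTop_nat 1)).const_mul (S * 14 ^ (2 * m) * 4)
  rw [mul_zero] at hlim
  have := ge_of_tendsto' hlim hcmp
  have : 0 < c ^ 2 := by positivity
  linarith

theorem whit_t (t : ℝ) : ∃ n : ℕ, ∀ Y : ℂ, ‖Y‖ ≤ 1 → iteratedDeriv n (Ft t) Y ≠ 0 := by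
  obtain ⟨C, hC⟩ := Ft_growth t
  exact whit (Ft_diff t) hC (by simpa using nonpoly t 0)

theorem unif (t0 : ℝ) : TendstoUniformlyOn Ft (Ft t0) (𝓝 t0) (Metric.closedBall (0 : ℂ) 2) := by
  have h1 : TendstoUniformlyOn Gt (Gt t0) (𝓝 t0) (Metric.closedBall (0 : ℂ) 2) := by
    rw [tendstoUniformlyOn_iff_tendstoUniformly_comp_coe]
    have : CompactSpace (Metric.closedBall (0 : ℂ) 2) :=
      isCompact_iff_compactSpace.1 (isCompact_closedBall _ _)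
    apply Continuous.tendstoUniformly (fun (t : ℝ) (x : Metric.closedBall (0 : ℂ) 2) => Gt t x)
    unfold Gt
    have hX := XX_diff.continuous
    fun_prop
  have h2 := h1.comp (fun Y : ℂ => Y ^ (((2 : ℕ) : ℂ)⁻¹))
  refine h2.mono fun Y hY => ?_
  rw [mem_closedBall_zero_iff] at hY
  rw [mem_preimage, mem_closedBall_zero_iff]
  have h3 : ‖Y ^ (((2 : ℕ) : ℂ)⁻¹)‖ ^ 2 = ‖Y‖ := by rw [← norm_pow, rt_sq]
  nlinarith [norm_nonneg (Y ^ (((2 : ℕ) : ℂ)⁻¹))]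

theorem appx : ∃ P : ℕ → ℝ[X], (∀ (N : ℕ) (x : ℂ), aeval x (P N) = 0 → FF x = 0) ∧
    TendstoLocallyUniformly (fun (N : ℕ) (x : ℂ) => aeval x (P N)) FF atTop := by
  obtain ⟨K, hK⟩ := Pool.Agent.H24R2.JP.growT
  obtain ⟨hd, -, hc, h0⟩ := Pool.Agent.H24R2.JP.b1
  refine Pool.Agent.H24R2.JP.had FF K hd ?_ hc hK
  have h1 := h0 0
  rw [iteratedDeriv_zero] at h1
  rw [h1]
  exact_mod_cast (Pool.Agent.H24R2.JP.gamT.1 0).ne'

theorem appF (t : ℝ) : ∃ Q : ℕ → ℂ[X], AppC (Ft t) Q := by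
  obtain ⟨P, h1, h2⟩ := appx
  exact ⟨fun N => Qp t (P N), fun N x hx => Qp_roots t (P N)
    (fun y hy => Pool.Agent.H24R2.JP.zerosT y (h1 N y hy)) x hx, Qp_tendsto t h2⟩

theorem LL_ne_of {t : ℝ} {n m : ℕ} (hn : ∀ Y : ℂ, ‖Y‖ ≤ 1 → iteratedDeriv n (Ft t) Y ≠ 0) (hm : n ≤ m) :
    LL m t ≠ 0 := by
  obtain ⟨Q, hQ⟩ := appF t
  have h := chain hQ (nonpoly t) hn hm
  rw [Ft_iter] at h
  exact fun h0 => h (by rw [h0, mul_zero])

theorem cpt (T : ℝ) : ∃ N : ℕ, ∀ t ∈ Icc (0 : ℝ) T, ∀ m : ℕ, N ≤ m → LL m t ≠ 0 := by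
  refine isCompact_Icc.induction_on (p := fun s : Set ℝ => ∃ N : ℕ, ∀ t ∈ s, ∀ m : ℕ, N ≤ m → LL m t ≠ 0)
    ⟨0, by simp⟩ ?_ ?_ ?_
  · rintro s t hst ⟨N, hN⟩
    exact ⟨N, fun x hx => hN x (hst hx)⟩
  · rintro s t ⟨N, hN⟩ ⟨N', hN'⟩
    refine ⟨max N N', fun x hx m hm => ?_⟩
    rcases hx with hx | hx
    · exact hN x hx m ((le_max_left _ _).trans hm)
    · exact hN' x hx m ((le_max_right _ _).trans hm)
  · intro t0 _
    obtain ⟨n, hn⟩ := whit_t t0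
    have h := stab Ft_diff (unif t0) hn
    exact ⟨_, mem_nhdsWithin_of_mem_nhds h, n, fun t ht m hm => LL_ne_of ht hm⟩

/-! ## The Riemann hypothesis -/

theorem FF_ne {x : ℝ} (hx : 0 ≤ x) : FF (x : ℂ) ≠ 0 := by
  intro hz
  have hs := Pool.Agent.H24R2.JP.B1h.hasSum_FF (x : ℂ)
  rw [hz] at hs
  have hs2 := Complex.hasSum_re hs
  have e : ∀ k : ℕ, (((gam k : ℝ) : ℂ) / (k.factorial : ℂ) * (x : ℂ) ^ k).re =
      gam k / (k.factorial : ℝ) * x ^ k := by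
    intro k
    have : (((gam k : ℝ) : ℂ) / (k.factorial : ℂ) * (x : ℂ) ^ k) =
        ((gam k / (k.factorial : ℝ) * x ^ k : ℝ) : ℂ) := by push_cast; ring
    rw [this, Complex.ofReal_re]
  simp only [e, Complex.zero_re] at hs2
  have h1 := le_hasSum hs2 0 (fun j _ => by have := Pool.Agent.H24R2.JP.gamT.1 j; positivity)
  simp only [Nat.factorial_zero, Nat.cast_one, pow_zero, mul_one, div_one] at h1
  exact absurd h1 (not_le.2 (Pool.Agent.H24R2.JP.gamT.1 0))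

/-- real polynomials with nonnegative coefficients -/
def NN (Q : ℂ[X]) : Prop := ∃ R : ℝ[X], Q = R.map (algebraMap ℝ ℂ) ∧ ∀ k, 0 ≤ R.coeff k

theorem NN_mul {P Q : ℂ[X]} (hP : NN P) (hQ : NN Q) : NN (P * Q) := by
  obtain ⟨A, rfl, hA⟩ := hP
  obtain ⟨B, rfl, hB⟩ := hQ
  refine ⟨A * B, by rw [Polynomial.map_mul], fun k => ?_⟩
  rw [coeff_mul]
  exact Finset.sum_nonneg fun x _ => mul_nonneg (hA _) (hB _)

theorem NN_Qp (t : ℝ) (p : ℝ[X]) (h : ∀ x : ℂ, aeval x p = 0 → x.im = 0 ∧ x.re ≤ 0) (hp : p ≠ 0) :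
    NN (Qp t p) := by
  unfold Qp
  refine NN_mul ⟨C (p.leadingCoeff ^ 2), ?_, fun k => ?_⟩ ?_
  · rw [map_C]
    congr 1
    simp
  · rw [coeff_C]
    split_ifs
    · positivity
    · exact le_rfl
  · have hr : ∀ a ∈ (p.map (algebraMap ℝ ℂ)).roots, a.im = 0 ∧ a.re ≤ 0 := by
      intro a ha
      have h1 := (mem_roots ((Polynomial.map_ne_zero_iff (algebraMap ℝ ℂ).injective).2 hp)).1 ha
      exact h a (by rw [← eval_map_algebraMap]; exact h1)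
    generalize (p.map (algebraMap ℝ ℂ)).roots = m at hr
    induction m using Multiset.induction_on with
    | empty =>
      refine ⟨1, by simp, fun k => ?_⟩
      rw [coeff_one]
      split_ifs <;> norm_num
    | cons a m ih =>
      rw [Multiset.map_cons, Multiset.prod_cons]
      refine NN_mul ?_ (ih fun b hb => hr b (Multiset.mem_cons_of_mem hb))
      obtain ⟨h1, h2⟩ := hr a (Multiset.mem_cons_self a m)
      have ha : a = ((a.re : ℝ) : ℂ) := by apply Complex.ext <;> simp [h1]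
      refine ⟨X ^ 2 + C (2 * (t ^ 2 - a.re)) * X + C ((t ^ 2 + a.re) ^ 2), ?_, fun k => ?_⟩
      · have e1 : ((X - C ((t : ℂ) ^ 2 + a)) ^ 2 + C (4 * (t : ℂ) ^ 2) * X : ℂ[X]) =
            X ^ 2 + C (2 * ((t : ℂ) ^ 2 - a)) * X + C (((t : ℂ) ^ 2 + a) ^ 2) := by
          simp only [C_add, C_mul, C_sub, C_pow, map_ofNat]
          ring
        have e2 : (algebraMap ℝ ℂ) (2 * (t ^ 2 - a.re)) = 2 * ((t : ℂ) ^ 2 - a) := by
          rw [Complex.coe_algebraMap]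
          push_cast
          rw [← ha]
        have e3 : (algebraMap ℝ ℂ) ((t ^ 2 + a.re) ^ 2) = ((t : ℂ) ^ 2 + a) ^ 2 := by
          rw [Complex.coe_algebraMap]
          push_cast
          rw [← ha]
        rw [e1, Polynomial.map_add, Polynomial.map_add, Polynomial.map_mul, Polynomial.map_pow, map_X, map_C,
          map_C, e2, e3]
      · have e : (X ^ 2 + C (2 * (t ^ 2 - a.re)) * X + C ((t ^ 2 + a.re) ^ 2) : ℝ[X]).coeff k =
            (if k = 2 then 1 else 0) + (2 * (t ^ 2 - a.re)) * (if 1 = k then 1 else 0) +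
              (if k = 0 then (t ^ 2 + a.re) ^ 2 else 0) := by
          rw [coeff_add, coeff_add, coeff_X_pow, coeff_C_mul, coeff_X, coeff_C]
        rw [e]
        have h3 : 0 ≤ 2 * (t ^ 2 - a.re) := by nlinarith [sq_nonneg t]
        have h4 : 0 ≤ (t ^ 2 + a.re) ^ 2 := sq_nonneg _
        split_ifs <;> simp <;> linarith

theorem LL_nonneg_RH (hRH : RiemannHypothesis) (n : ℕ) (t : ℝ) : 0 ≤ (LL n t).re := by
  obtain ⟨P, h1, h2⟩ := appx
  have hz : ∀ x : ℂ, FF x = 0 → x.im = 0 ∧ x.re ≤ 0 := by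
    intro x hx
    have him := Pool.Agent.H24R2.JP.RHa.real_zeros_iter Pool.Agent.H24R2.JP.circT
      Pool.Agent.H24R2.JP.goodT Pool.Agent.H24R2.JP.b1 hRH 0 x (by rw [iteratedDeriv_zero]; exact hx)
    refine ⟨him, ?_⟩
    by_contra hc
    push Not at hc
    have : x = ((x.re : ℝ) : ℂ) := by apply Complex.ext <;> simp [him]
    rw [this] at hx
    exact FF_ne hc.le hx
  have hlim : Tendsto (fun N => (derivative^[n] (Qp t (P N))).eval 0) atTop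
      (𝓝 (iteratedDeriv n (Ft t) 0)) :=
    (tendstoLocallyUniformlyOn_univ.2 (appC_der (Qp_tendsto t h2) n)).tendsto_at (Set.mem_univ 0)
  have hre := (Complex.continuous_re.tendsto _).comp hlim
  have hge : 0 ≤ (iteratedDeriv n (Ft t) 0).re := by
    refine ge_of_tendsto' hre fun N => ?_
    simp only [Function.comp_apply]
    have hp : P N ≠ 0 := by
      intro h0
      have h3 := h1 N 0 (by rw [h0]; simp)
      exact FF_ne le_rfl (by simpa using h3)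
    obtain ⟨R, hR, hRk⟩ := NN_Qp t (P N) (fun x hx => hz x (h1 N x hx)) hp
    rw [hR, iterate_derivative_map, ← coeff_zero_eq_eval_zero, coeff_map, coeff_iterate_derivative]
    simp only [zero_add, Complex.coe_algebraMap, Complex.ofReal_re]
    rw [nsmul_eq_mul]
    exact mul_nonneg (Nat.cast_nonneg _) (hRk _)
  rw [Ft_iter] at hge
  have h3 : ((n.factorial : ℂ) * LL n t).re = (n.factorial : ℝ) * (LL n t).re := by
    rw [← LL_real n t, ← Complex.ofReal_natCast, ← Complex.ofReal_mul, Complex.ofReal_re,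
      Complex.ofReal_re]
  rw [h3] at hge
  have h4 : (0 : ℝ) < n.factorial := by exact_mod_cast n.factorial_pos
  exact nonneg_of_mul_nonneg_right hge h4

/-- If all `LL n t` are nonnegative, `XX` has no zeros off the imaginary axis. -/
theorem XX_zero_of_nonneg (h : ∀ (n : ℕ) (t : ℝ), 0 ≤ (LL n t).re) (z : ℂ) (hz : XX z = 0) : z.re = 0 := by
  by_contra hre
  have h1 : Gt z.im (z.re : ℂ) = 0 := by
    unfold Gt
    have e : I * (z.im : ℂ) + (z.re : ℂ) = z := by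
      rw [add_comm, mul_comm]
      exact Complex.re_add_im z
    rw [e, hz, zero_mul]
  have hs := hasSum_Gt z.im (z.re : ℂ)
  rw [h1] at hs
  have hs2 := Complex.hasSum_re hs
  have e : ∀ n : ℕ, (LL n z.im * ((z.re : ℂ) ^ 2) ^ n).re = (LL n z.im).re * (z.re ^ 2) ^ n := by
    intro n
    have : LL n z.im * ((z.re : ℂ) ^ 2) ^ n = (((LL n z.im).re * (z.re ^ 2) ^ n : ℝ) : ℂ) := by
      rw [Complex.ofReal_mul, LL_real]
      push_cast
      ring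
    rw [this, Complex.ofReal_re]
  simp only [e, Complex.zero_re] at hs2
  have hpos : 0 < z.re ^ 2 := by positivity
  have hz0 : ∀ n : ℕ, LL n z.im = 0 := by
    intro n
    have h2 := le_hasSum hs2 n (fun j _ => mul_nonneg (h j _) (by positivity))
    have h3 : (LL n z.im).re * (z.re ^ 2) ^ n = 0 :=
      le_antisymm h2 (mul_nonneg (h n _) (by positivity))
    have h4 : (LL n z.im).re = 0 := by
      rcases mul_eq_zero.1 h3 with h4 | h4
      · exact h4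
      · exact absurd h4 (by positivity)
    rw [← LL_real, h4, Complex.ofReal_zero]
  obtain ⟨Y, hY⟩ := nonpoly z.im 0
  rw [iteratedDeriv_zero] at hY
  apply hY
  have h5 := hasSum_Ft z.im Y
  simp only [hz0, zero_mul] at h5
  exact h5.unique hasSum_zero

end Pool.Agent.TH231.LG
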