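import Pool.Agent.TH231.LG.WinL

/-!
The converse: the real-variable core and the bounds for the coefficients.
-/

set_option autoImplicit false

namespace Pool.Agent.TH231.LG

open Complex Filter Topology Set
open Pool.Agent.H24R2.JP (XX HH Om FF Par gam)
open Pool.Agent.H986R2.K4

theorem core {l : ℕ → ℝ} {n1 n2 : ℕ} {β p E S T FP : ℝ} (hβ : 0 < β) (hβp : β < p)
    (h12 : n1 ≤ n2) (h0 : HasSum (fun n => l n * β ^ (2 * n)) 0)
    (hp : HasSum (fun n => l n * p ^ (2 * n)) FP) (hpos : ∀ n, n1 ≤ n → 0 ≤ l n)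
    (hE : ∀ n, n < n1 → |l n| * p ^ (2 * n) ≤ E)
    {g : ℕ → ℝ} (hg : HasSum g T) (hgl : ∀ n, l (n + n2) * p ^ (2 * (n + n2)) ≤ g n) (hS : S = n1 * E) :
    (β / p) ^ (2 * n2) * (FP - T) ≤ 2 * S := by
  have hp0 : 0 < p := hβ.trans hβp
  obtain ⟨c, hc⟩ : ∃ c : ℝ, c = (β / p) ^ (2 * n2) := ⟨_, rfl⟩
  have hbp1 : β / p ≤ 1 := by
    rw [div_le_one hp0]
    exact hβp.le
  have hbp0 : 0 < β / p := by positivity
  have hc0 : 0 ≤ c := by rw [hc]; positivity
  have hc1 : c ≤ 1 := by rw [hc]; exact pow_le_one₀ hbp0.le hbp1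
  rw [← hc]
  -- the tails
  have t1 := (hasSum_nat_add_iff' n2).2 h0
  have t2 := (hasSum_nat_add_iff' n2).2 hp
  have a1 : ∑ i ∈ Finset.range n2, l i * β ^ (2 * i) ≤ 0 := by
    have := t1.nonneg fun n => mul_nonneg (hpos (n + n2) (by omega)) (by positivity)
    linarith
  have a2 : FP - ∑ i ∈ Finset.range n2, l i * p ^ (2 * i) ≤ T := hasSum_le hgl t2 hg
  have a3 : ∀ i ∈ Finset.range n2, c * (l i * p ^ (2 * i)) - (if i < n1 then 2 * E else 0) ≤
      l i * β ^ (2 * i) := by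
    intro i hi
    rw [Finset.mem_range] at hi
    have hbi : β ^ (2 * i) ≤ p ^ (2 * i) := pow_le_pow_left₀ hβ.le hβp.le _
    have hb0 : 0 ≤ β ^ (2 * i) := by positivity
    have hpi : 0 ≤ p ^ (2 * i) := by positivity
    split_ifs with h
    · have h1 := hE i h
      have h2 : |l i| * β ^ (2 * i) ≤ |l i| * p ^ (2 * i) := by gcongr
      have h3 : -(|l i| * β ^ (2 * i)) ≤ l i * β ^ (2 * i) := by
        have := mul_le_mul_of_nonneg_right (neg_abs_le (l i)) hb0
        linarith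
      have h4 : l i * p ^ (2 * i) ≤ |l i| * p ^ (2 * i) := by
        gcongr
        exact le_abs_self _
      have h5 : c * (l i * p ^ (2 * i)) ≤ 1 * E := by
        calc c * (l i * p ^ (2 * i)) ≤ c * (|l i| * p ^ (2 * i)) := by gcongr
          _ ≤ 1 * (|l i| * p ^ (2 * i)) := by gcongr
          _ ≤ 1 * E := by gcongr
      linarith
    · push Not at h
      have h1 := hpos i h
      have h2 : c * p ^ (2 * i) ≤ β ^ (2 * i) := by
        have h3 : c ≤ (β / p) ^ (2 * i) := by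
          rw [hc]
          exact pow_le_pow_of_le_one hbp0.le hbp1 (by omega)
        calc c * p ^ (2 * i) ≤ (β / p) ^ (2 * i) * p ^ (2 * i) := by gcongr
          _ = β ^ (2 * i) := by
            rw [← mul_pow, div_mul_cancel₀ _ hp0.ne']
      calc c * (l i * p ^ (2 * i)) - 0 = l i * (c * p ^ (2 * i)) := by ring
        _ ≤ l i * β ^ (2 * i) := by gcongr
  have a4 := Finset.sum_le_sum a3
  rw [Finset.sum_sub_distrib, ← Finset.mul_sum] at a4
  have a5 : ∑ i ∈ Finset.range n2, (if i < n1 then 2 * E else 0) = 2 * S := by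
    rw [← Finset.sum_filter]
    have : (Finset.range n2).filter (fun i => i < n1) = Finset.range n1 := by
      ext i
      simp only [Finset.mem_filter, Finset.mem_range]
      omega
    rw [this, Finset.sum_const, Finset.card_range, nsmul_eq_mul, hS]
    ring
  rw [a5] at a4
  have a6 : c * (FP - T) ≤ c * ∑ i ∈ Finset.range n2, l i * p ^ (2 * i) := by
    gcongr
    linarith
  linarith

/-- Cauchy's bound for the coefficients, with the convexity bound for `XX`. -/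
theorem LLb {x0 ν C t1 : ℝ} (hx0 : 0 < x0) (hx1 : x0 ≤ 1) (hν0 : 0 ≤ ν) (hν1 : ν ≤ 1) (hC : 0 < C)
    (ht1 : 1 ≤ t1) (h : ∀ t : ℝ, t1 ≤ t → ‖riemannZeta (1 / 2 + x0 + t * I)‖ ≤ C * t ^ ν) :
    ∃ C' T0 : ℝ, 0 < C' ∧ 2 ≤ T0 ∧ ∀ (t : ℝ) (n : ℕ), T0 ≤ t →
      ‖LL n t‖ ≤ C' * Real.exp ((2 * ν + x0) * Real.log t) * ‖HH (I * t)‖ ^ 2 / x0 ^ (2 * n) := by
  obtain ⟨C', T0, hC', hT0, hb⟩ := pl hh x0 ν C t1 1 hx0 hx1 hν0 hν1 hC ht1 le_rfl h
  refine ⟨C' ^ 2, T0, by positivity, hT0, fun t n ht => ?_⟩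
  have ht0 : 0 < t := by linarith
  have hG : ∀ u : ℂ, ‖u‖ = x0 → ‖Gt t u‖ ≤
      C' ^ 2 * Real.exp ((2 * ν + x0) * Real.log t) * ‖HH (I * t)‖ ^ 2 := by
    intro u hu
    have h1 := hb t u ht ((Complex.abs_re_le_norm u).trans hu.le)
      ((Complex.abs_im_le_norm u).trans (hu.le.trans hx1))
    have h2 := hb t (-u) ht (by rw [Complex.neg_re, abs_neg]; exact (Complex.abs_re_le_norm u).trans hu.le)
      (by rw [Complex.neg_im, abs_neg]; exact (Complex.abs_im_le_norm u).trans (hu.le.trans hx1))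
    have e1 : I * (t : ℂ) + -u = I * t - u := by ring
    rw [e1] at h2
    unfold Gt
    rw [norm_mul]
    have e2 : t ^ ν = Real.exp (ν * Real.log t) := by
      rw [Real.rpow_def_of_pos ht0, mul_comm]
    have e3 : C' ^ 2 * Real.exp ((2 * ν + x0) * Real.log t) * ‖HH (I * t)‖ ^ 2 =
        (C' * t ^ ν * (Real.exp (x0 * Om t) * ‖HH (I * t)‖)) *
        (C' * t ^ ν * (Real.exp (x0 * Om t) * ‖HH (I * t)‖)) := by
      rw [e2]
      have e4 : Real.exp ((2 * ν + x0) * Real.log t) = Real.exp (ν * Real.log t) ^ 2 *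
          Real.exp (x0 * Om t) ^ 2 := by
        rw [← Real.exp_nat_mul, ← Real.exp_nat_mul, ← Real.exp_add]
        congr 1
        unfold Om
        push_cast
        ring
      rw [e4]
      ring
    rw [e3]
    exact mul_le_mul h1 h2 (norm_nonneg _) ((norm_nonneg _).trans h1)
  have h3 := norm_iteratedDeriv_le_of_forall_mem_sphere_norm_le (f := Gt t) (c := 0) (R := x0)
    (C := C' ^ 2 * Real.exp ((2 * ν + x0) * Real.log t) * ‖HH (I * t)‖ ^ 2) (2 * n) hx0
    (Gt_diff t).diffContOnCl (fun z hz => hG z (by simpa using hz))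
  unfold LL
  have hf : (0 : ℝ) < (2 * n).factorial := by exact_mod_cast (2 * n).factorial_pos
  rw [norm_div, Complex.norm_natCast, div_le_iff₀ hf]
  calc _ ≤ _ := h3
    _ = _ := by ring

theorem hasSum_real (t x : ℝ) : HasSum (fun n : ℕ => (LL n t).re * x ^ (2 * n)) (‖XX (I * t + x)‖ ^ 2) := by
  have hs := Complex.hasSum_re (hasSum_Gt t (x : ℂ))
  have e : ∀ n : ℕ, (LL n t * ((x : ℂ) ^ 2) ^ n).re = (LL n t).re * x ^ (2 * n) := by
    intro n
    have : LL n t * ((x : ℂ) ^ 2) ^ n = (((LL n t).re * x ^ (2 * n) : ℝ) : ℂ) := by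
      rw [Complex.ofReal_mul, LL_real]
      push_cast
      rw [pow_mul]
    rw [this, Complex.ofReal_re]
  have e2 : (Gt t (x : ℂ)).re = ‖XX (I * t + x)‖ ^ 2 := by
    unfold Gt
    have h : XX (I * t - x) = (starRingEnd ℂ) (XX (I * t + x)) := by
      rw [← Pool.Agent.H24R2.JP.B1h.XX_conj, map_add, conj_It, Complex.conj_ofReal,
        ← Pool.Agent.H24R2.JP.B1h.XX_neg]
      congr 1
      ring
    rw [h, Complex.mul_conj, Complex.ofReal_re, Complex.normSq_eq_norm_sq]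
  rw [e2] at hs
  simpa only [e] using hs

theorem LL_abs (n : ℕ) (t : ℝ) : |(LL n t).re| = ‖LL n t‖ := by
  rw [← LL_real n t, Complex.norm_real, Real.norm_eq_abs, Complex.ofReal_re]

end Pool.Agent.TH231.LG
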