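import Pool.Agent.TH231.LG.ConvA

/-!
The converse: positivity beyond `exp (4 n)` gives a zero-free half-plane.
-/

set_option autoImplicit false

namespace Pool.Agent.TH231.LG

open Complex Filter Topology Set
open Pool.Agent.H24R2.JP (XX HH Om FF Par gam)
open Pool.Agent.H986R2.K4

/-- the exponent -/
theorem expo {κ q e0 e' c1 ρ p δ : ℝ} (hκ : 4 < κ) (hq : q = 1 - 4 / κ) (hδ : δ = q / 16) (he0 : 0 < e0)
    (he1 : e0 ≤ q / 32) (hc1 : c1 = 3 / 4 * q * e0) (he' : e' = c1 / 40) (hρ : ρ = 1 / 2 - e0)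
    (hp : p = 1 / 2 + e') (hq0 : 0 < q) (hq1 : q < 1) :
    2 * (δ * e0) + ρ + 2 / κ * Real.log (p / ρ) ≤ 1 / 2 - 19 / 20 * c1 := by
  have he2 : e0 ≤ 1 / 32 := by linarith
  have hc0 : 0 < c1 := by rw [hc1]; positivity
  have he'0 : 0 < e' := by rw [he']; positivity
  have hρ0 : 0 < ρ := by rw [hρ]; linarith
  have hp0 : 0 < p := by rw [hp]; linarith
  have h1 : Real.log (p / ρ) ≤ (e0 + e') * (2 * (1 + 4 * e0)) := by
    have h2 := Real.log_le_sub_one_of_pos (div_pos hp0 hρ0)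
    have h3 : p / ρ - 1 ≤ (e0 + e') * (2 * (1 + 4 * e0)) := by
      have h4 : p / ρ - 1 = (e0 + e') / ρ := by
        rw [div_sub_one hρ0.ne']
        congr 1
        rw [hp, hρ]
        ring
      rw [h4, div_le_iff₀ hρ0]
      have h5 : 1 ≤ 2 * (1 + 4 * e0) * ρ := by
        rw [hρ]
        nlinarith
      calc e0 + e' = (e0 + e') * 1 := by ring
        _ ≤ (e0 + e') * (2 * (1 + 4 * e0) * ρ) := by gcongr
        _ = _ := by ring
    linarith
  have hκ0 : 0 < κ := by linarith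
  have h2 : 2 / κ * Real.log (p / ρ) ≤ (1 - q) * ((e0 + e') * (1 + 4 * e0)) := by
    have h3 : 2 / κ = (1 - q) / 2 := by
      rw [hq]
      ring
    rw [h3]
    have h4 : 0 ≤ (1 - q) / 2 := by linarith
    calc (1 - q) / 2 * Real.log (p / ρ) ≤ (1 - q) / 2 * ((e0 + e') * (2 * (1 + 4 * e0))) := by gcongr
      _ = _ := by ring
  have h3 : (1 - q) * ((e0 + e') * (1 + 4 * e0)) ≤ e0 - q * e0 + 4 * e0 ^ 2 + 2 * e' := by
    have h4 : (1 - q) * ((e0 + e') * (1 + 4 * e0)) = (1 - q) * (e0 * (1 + 4 * e0)) +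
        (1 - q) * (1 + 4 * e0) * e' := by ring
    have h5 : (1 - q) * (1 + 4 * e0) ≤ 2 := by nlinarith
    have h6 : (1 - q) * (1 + 4 * e0) * e' ≤ 2 * e' := by gcongr
    have h7 : (1 - q) * (e0 * (1 + 4 * e0)) ≤ e0 - q * e0 + 4 * e0 ^ 2 := by
      have : 0 ≤ q * e0 ^ 2 := by positivity
      nlinarith
    linarith
  have h4 : 4 * e0 ^ 2 ≤ q / 8 * e0 := by nlinarith
  have h5 : 2 * (δ * e0) = q / 8 * e0 := by rw [hδ]; ring
  rw [h5]
  have h6 : c1 = 3 / 4 * (q * e0) := by rw [hc1]; ring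
  linarith

theorem ratio_low {β p e' : ℝ} (he : 0 < e') (he1 : e' ≤ 1 / 4) (hp : p = 1 / 2 + e') (hβ : 1 / 2 - e' < β) :
    Real.exp (-(6 * e')) ≤ β / p := by
  have hp0 : 0 < p := by rw [hp]; linarith
  rw [le_div_iff₀ hp0, hp]
  have h1 : (1 : ℝ) + 2 * e' ≤ Real.exp (2 * e') := by
    have := Real.add_one_le_exp (2 * e')
    linarith
  have h2 : 1 ≤ (1 - 2 * e') * Real.exp (4 * e') := by
    have h3 : 1 + 4 * e' ≤ Real.exp (4 * e') := by
      have := Real.add_one_le_exp (4 * e')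
      linarith
    have h4 : 1 ≤ (1 - 2 * e') * (1 + 4 * e') := by nlinarith
    calc 1 ≤ (1 - 2 * e') * (1 + 4 * e') := h4
      _ ≤ _ := by
        have : 0 ≤ 1 - 2 * e' := by linarith
        gcongr
  have h3 : Real.exp (-(6 * e')) * Real.exp (4 * e') * Real.exp (2 * e') = 1 := by
    rw [← Real.exp_add, ← Real.exp_add]
    have : -(6 * e') + 4 * e' + 2 * e' = 0 := by ring
    rw [this, Real.exp_zero]
  have h4 : Real.exp (-(6 * e')) * (1 + 2 * e') ≤ 1 - 2 * e' := by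
    calc Real.exp (-(6 * e')) * (1 + 2 * e') ≤ Real.exp (-(6 * e')) * (1 + 2 * e') *
          ((1 - 2 * e') * Real.exp (4 * e')) := by
          have : 0 ≤ Real.exp (-(6 * e')) * (1 + 2 * e') := by positivity
          nlinarith
      _ ≤ Real.exp (-(6 * e')) * Real.exp (2 * e') * ((1 - 2 * e') * Real.exp (4 * e')) := by
          have : 0 ≤ (1 - 2 * e') * Real.exp (4 * e') := by linarith
          gcongr
      _ = (1 - 2 * e') * (Real.exp (-(6 * e')) * Real.exp (4 * e') * Real.exp (2 * e')) := by ring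
      _ = 1 - 2 * e' := by rw [h3, mul_one]
  linarith

theorem limit_zero (a b c d : ℝ) (hc : 0 < c) (hd : 0 < d) :
    Tendsto (fun X : ℝ => a * Real.exp (-(d * X)) + b * ((X + 1) * Real.exp (-(c * X)))) atTop (𝓝 0) := by
  have h1 : Tendsto (fun X : ℝ => Real.exp (-(d * X))) atTop (𝓝 0) := by
    apply Real.tendsto_exp_neg_atTop_nhds_zero.comp
    exact tendsto_id.const_mul_atTop hd
  have h2 : Tendsto (fun X : ℝ => X ^ (1 : ℝ) * Real.exp (-c * X)) atTop (𝓝 0) :=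
    tendsto_rpow_mul_exp_neg_mul_atTop_nhds_zero 1 c hc
  have h3 : Tendsto (fun X : ℝ => Real.exp (-(c * X))) atTop (𝓝 0) := by
    apply Real.tendsto_exp_neg_atTop_nhds_zero.comp
    exact tendsto_id.const_mul_atTop hc
  have h4 := (h1.const_mul a).add ((h2.add h3).const_mul b)
  simp only [mul_zero, add_zero] at h4
  refine h4.congr fun X => ?_
  rw [Real.rpow_one, neg_mul]
  ring

set_option maxHeartbeats 4000000 in
theorem conv4 {κ : ℝ} (hκ : 4 < κ) (hU : ∃ N : ℕ, ∀ n : ℕ, N ≤ n → ∀ x : ℝ, |x| ≤ Real.exp (κ * n) →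
    0 ≤ (LL n x).re) : ∃ y : ℝ, y < 1 / 2 ∧ ∀ s : ℂ, 1 / 2 + y < s.re → riemannZeta s ≠ 0 := by
  by_contra hcon
  push Not at hcon
  obtain ⟨N, hN⟩ := hU
  have hκ0 : 0 < κ := by linarith
  obtain ⟨q, hq⟩ : ∃ q : ℝ, q = 1 - 4 / κ := ⟨_, rfl⟩
  have hq0 : 0 < q := by
    rw [hq, sub_pos, div_lt_one hκ0]
    exact hκ
  have hq1 : q < 1 := by
    rw [hq]
    have : 0 < 4 / κ := by positivity
    linarith
  obtain ⟨δ, hδ⟩ : ∃ δ : ℝ, δ = q / 16 := ⟨_, rfl⟩
  obtain ⟨e1, he10, he11, hV⟩ := vdcQ δ (by rw [hδ]; positivity)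
  obtain ⟨e0, he0⟩ : ∃ e0 : ℝ, e0 = min e1 (q / 32) := ⟨_, rfl⟩
  have he00 : 0 < e0 := by rw [he0]; positivity
  have he01 : e0 ≤ e1 := by rw [he0]; exact min_le_left _ _
  have he02 : e0 ≤ q / 32 := by rw [he0]; exact min_le_right _ _
  obtain ⟨CV, hCV, hVC⟩ := hV e0 he00 he01
  obtain ⟨ρ, hρ⟩ : ∃ ρ : ℝ, ρ = 1 / 2 - e0 := ⟨_, rfl⟩
  obtain ⟨c1, hc1⟩ : ∃ c1 : ℝ, c1 = 3 / 4 * q * e0 := ⟨_, rfl⟩
  obtain ⟨e', he'⟩ : ∃ e' : ℝ, e' = c1 / 40 := ⟨_, rfl⟩
  obtain ⟨p, hp⟩ : ∃ p : ℝ, p = 1 / 2 + e' := ⟨_, rfl⟩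
  have hc10 : 0 < c1 := by rw [hc1]; positivity
  have hc11 : c1 ≤ 1 / 32 := by
    rw [hc1]
    nlinarith
  have he'0 : 0 < e' := by rw [he']; positivity
  have he'1 : e' ≤ 1 / 1000 := by rw [he']; linarith
  have hρ0 : 0 < ρ := by rw [hρ]; linarith
  have hρ1 : ρ < 1 / 2 := by rw [hρ]; linarith
  have hp0 : 0 < p := by rw [hp]; linarith
  have hp1 : p ≤ 501 / 1000 := by rw [hp]; linarith
  have hex := expo hκ hq hδ he00 he02 hc1 he' hρ hp hq0 hq1
  -- the bounds for the coefficients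
  have hν0 : 0 ≤ δ * e0 := by rw [hδ]; positivity
  have hν1 : δ * e0 ≤ 1 := by rw [hδ]; nlinarith
  obtain ⟨C1, T1, hC1, hT1, hB1⟩ := LLb (x0 := ρ) (ν := δ * e0) (C := CV) (t1 := 2) hρ0 (by linarith) hν0 hν1
    hCV (by norm_num) (fun t ht => by
      have := hVC t ht
      have e : (1 / 2 + (ρ : ℂ) + t * I) = 1 - (e0 : ℂ) + t * I := by
        rw [hρ]
        push_cast
        ring
      rw [e]
      exact this)
  obtain ⟨ta, hta, hza⟩ := a1 (1 / 100) (by norm_num)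
  obtain ⟨C2, T2, hC2, hT2, hB2⟩ := LLb (x0 := 1) (ν := 1 / 100) (C := 1) (t1 := ta) one_pos le_rfl
    (by norm_num) (by norm_num) one_pos (by linarith) (fun t ht => by
      have h1 : ((1 : ℂ) / 2 + ((1 : ℝ) : ℂ) + t * I).re = 1 / 2 + 1 := by simp
      have h2 : ((1 : ℂ) / 2 + ((1 : ℝ) : ℂ) + t * I).im = t := by simp
      have := (hza (1 / 2 + ((1 : ℝ) : ℂ) + t * I) (by rw [h1]; norm_num) (by rw [h2]; exact ht)).2.2.2
      rw [h2] at this
      rw [one_mul]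
      exact this)
  obtain ⟨K, hK1, hHH⟩ := hh
  obtain ⟨T3, hT3, hB3⟩ := hHH 1 le_rfl
  obtain ⟨T4, hT4, hB4⟩ := a1 (e' / 2) (by positivity)
  -- the limit
  have hlim := limit_zero (2 * C2) (2 * Real.exp 1 * C1) (13 / 20 * c1) (12 / 25) (by positivity) (by norm_num)
  obtain ⟨X0, hX0⟩ := eventually_atTop.1 (hlim.eventually (gt_mem_nhds (Real.exp_pos (-(2 * K)))))
  obtain ⟨X1, hX1⟩ : ∃ X1 : ℝ, X1 = max (max X0 1) (κ * (N + 1)) := ⟨_, rfl⟩
  obtain ⟨s, hs0, hs1, hs2, hs3⟩ := v0 hcon e' (max (max (max T1 T2) (max T3 T4)) (Real.exp X1)) he'0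
  obtain ⟨t, ht⟩ : ∃ t : ℝ, t = s.im := ⟨_, rfl⟩
  obtain ⟨β, hβ⟩ : ∃ β : ℝ, β = s.re - 1 / 2 := ⟨_, rfl⟩
  rw [← ht] at hs3
  have ht1 : T1 ≤ t := le_trans (le_trans (le_trans (le_max_left _ _) (le_max_left _ _)) (le_max_left _ _)) hs3
  have ht2 : T2 ≤ t := le_trans (le_trans (le_trans (le_max_right _ _) (le_max_left _ _)) (le_max_left _ _)) hs3
  have ht3 : T3 ≤ t := le_trans (le_trans (le_trans (le_max_left _ _) (le_max_right _ _)) (le_max_left _ _)) hs3
  have ht4 : T4 ≤ t := le_trans (le_trans (le_trans (le_max_right _ _) (le_max_right _ _)) (le_max_left _ _)) hs3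
  have ht5 : Real.exp X1 ≤ t := le_trans (le_max_right _ _) hs3
  have ht0 : 0 < t := by linarith
  obtain ⟨X, hX⟩ : ∃ X : ℝ, X = Real.log t := ⟨_, rfl⟩
  have hXt : Real.exp X = t := by rw [hX]; exact Real.exp_log ht0
  have hXX1 : X1 ≤ X := by rw [hX, Real.le_log_iff_exp_le ht0]; exact ht5
  have hXX0 : X0 ≤ X := le_trans (by rw [hX1]; exact le_trans (le_max_left _ _) (le_max_left _ _)) hXX1
  have hX1' : 1 ≤ X := le_trans (by rw [hX1]; exact le_trans (le_max_right _ _) (le_max_left _ _)) hXX1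
  have hXN : κ * (N + 1) ≤ X := le_trans (by rw [hX1]; exact le_max_right _ _) hXX1
  have hX0' : 0 < X := by linarith
  have hβ1 : 1 / 2 - e' < β := by rw [hβ]; linarith
  have hβ2 : β < p := by rw [hβ, hp]; linarith
  have hβ0 : 0 < β := by linarith
  -- the data for `core`
  obtain ⟨H, hH⟩ : ∃ H : ℝ, H = ‖HH (I * t)‖ ^ 2 := ⟨_, rfl⟩
  have hHpos : 0 < H := by
    have := (hB3 t 0 ht3 (by rw [norm_zero]; norm_num)).2.1
    rw [add_zero] at this
    rw [hH]
    have := norm_pos_iff.2 this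
    positivity
  obtain ⟨n1, hn1⟩ : ∃ n1 : ℕ, n1 = ⌈X / κ⌉₊ := ⟨_, rfl⟩
  obtain ⟨n2, hn2⟩ : ∃ n2 : ℕ, n2 = ⌈X⌉₊ := ⟨_, rfl⟩
  have h12 : n1 ≤ n2 := by
    rw [hn1, hn2]
    apply Nat.ceil_mono
    rw [div_le_iff₀ hκ0]
    nlinarith
  have hn1a : X / κ ≤ n1 := by rw [hn1]; exact Nat.le_ceil _
  have hn1b : (n1 : ℝ) ≤ X + 1 := by
    have h1 : (n1 : ℝ) < X / κ + 1 := by rw [hn1]; exact Nat.ceil_lt_add_one (by positivity)
    have h2 : X / κ ≤ X := by
      rw [div_le_iff₀ hκ0]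
      nlinarith
    linarith
  have hn2a : X ≤ n2 := by rw [hn2]; exact Nat.le_ceil _
  have hn2b : (n2 : ℝ) ≤ X + 1 := by rw [hn2]; exact (Nat.ceil_lt_add_one hX0'.le).le
  have hs0' : HasSum (fun n : ℕ => (LL n t).re * β ^ (2 * n)) 0 := by
    have h1 := hasSum_real t β
    have h2 : XX (I * t + β) = 0 := by
      have him : (I * (t : ℂ) + (β : ℂ)).im = t := by simp
      rw [Pool.Agent.H24R2.JP.ZetaTask.part1 _ (by rw [him]; exact ht0)]
      have e : (1 / 2 + (I * (t : ℂ) + (β : ℂ)) : ℂ) = s := by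
        apply Complex.ext
        · simp [hβ]
        · simp [ht]
      rw [e, hs0, mul_zero]
    rw [h2, norm_zero] at h1
    simpa using h1
  have hsp := hasSum_real t p
  obtain ⟨E, hE⟩ : ∃ E : ℝ, E = C1 * Real.exp ((1 / 2 - 19 / 20 * c1) * X) * H := ⟨_, rfl⟩
  have hEb : ∀ n : ℕ, n < n1 → |(LL n t).re| * p ^ (2 * n) ≤ E := by
    intro n hn
    have hnX : (n : ℝ) ≤ X / κ := by
      rw [hn1, Nat.lt_ceil] at hn
      exact hn.le
    have h1 := hB1 t n ht1
    rw [← hX, ← hH] at h1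
    rw [LL_abs]
    have h2 : p ^ (2 * n) / ρ ^ (2 * n) ≤ Real.exp (2 / κ * Real.log (p / ρ) * X) := by
      rw [← div_pow]
      have hpr : 1 < p / ρ := by
        rw [one_lt_div hρ0]
        linarith
      have h3 : (p / ρ) ^ (2 * n) = Real.exp (2 * n * Real.log (p / ρ)) := by
        have : p / ρ = Real.exp (Real.log (p / ρ)) := (Real.exp_log (by positivity)).symm
        conv_lhs => rw [this]
        rw [← Real.exp_nat_mul]
        push_cast
        ring_nf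
      rw [h3]
      apply Real.exp_le_exp.2
      have hl : 0 < Real.log (p / ρ) := Real.log_pos hpr
      calc 2 * n * Real.log (p / ρ) ≤ 2 * (X / κ) * Real.log (p / ρ) := by gcongr
        _ = 2 / κ * Real.log (p / ρ) * X := by ring
    calc ‖LL n t‖ * p ^ (2 * n)
        ≤ (C1 * Real.exp ((2 * (δ * e0) + ρ) * X) * H / ρ ^ (2 * n)) * p ^ (2 * n) := by gcongr
      _ = C1 * Real.exp ((2 * (δ * e0) + ρ) * X) * H * (p ^ (2 * n) / ρ ^ (2 * n)) := by ring
      _ ≤ C1 * Real.exp ((2 * (δ * e0) + ρ) * X) * H * Real.exp (2 / κ * Real.log (p / ρ) * X) := by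
          gcongr
      _ = C1 * Real.exp ((2 * (δ * e0) + ρ + 2 / κ * Real.log (p / ρ)) * X) * H := by
          rw [add_mul _ (2 / κ * Real.log (p / ρ)) X, Real.exp_add]
          ring
      _ ≤ C1 * Real.exp ((1 / 2 - 19 / 20 * c1) * X) * H := by gcongr
      _ = E := hE.symm
  -- the tail
  have hg : HasSum (fun n : ℕ => C2 * Real.exp (1 / 50 * X) * H * (1 / 2 : ℝ) ^ n)
      (2 * C2 * Real.exp (1 / 50 * X) * H) := by
    have e : 2 * C2 * Real.exp (1 / 50 * X) * H = C2 * Real.exp (1 / 50 * X) * H * 2 := by ring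
    rw [e]
    exact hasSum_geometric_two.mul_left (C2 * Real.exp (1 / 50 * X) * H)
  have hgl : ∀ n : ℕ, (LL (n + n2) t).re * p ^ (2 * (n + n2)) ≤
      C2 * Real.exp (1 / 50 * X) * H * (1 / 2 : ℝ) ^ n := by
    intro n
    have h1 := hB2 t (n + n2) ht2
    rw [← hX, ← hH, one_pow, div_one] at h1
    have h2 : p ^ 2 ≤ Real.exp (-1) := by
      have h3 : p ^ 2 ≤ 1 / 3 := by nlinarith
      have h4 : (1 : ℝ) / 3 ≤ Real.exp (-1) := by
        rw [Real.exp_neg, one_div]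
        apply inv_anti₀ (Real.exp_pos _)
        linarith [Real.exp_one_lt_d9]
      linarith
    have h3 : p ^ 2 ≤ 1 / 2 := by nlinarith
    have h4 : p ^ (2 * (n + n2)) ≤ (1 / 2) ^ n * Real.exp (-X) := by
      rw [pow_mul, pow_add]
      have h5 : (p ^ 2) ^ n ≤ (1 / 2) ^ n := pow_le_pow_left₀ (by positivity) h3 n
      have h6 : (p ^ 2) ^ n2 ≤ Real.exp (-X) := by
        refine (pow_le_pow_left₀ (by positivity) h2 n2).trans ?_
        rw [← Real.exp_nat_mul]
        apply Real.exp_le_exp.2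
        linarith
      gcongr
    calc (LL (n + n2) t).re * p ^ (2 * (n + n2)) ≤ ‖LL (n + n2) t‖ * p ^ (2 * (n + n2)) := by
          gcongr
          exact Complex.re_le_norm _
      _ ≤ (C2 * Real.exp ((2 * (1 / 100) + 1) * X) * H) * ((1 / 2) ^ n * Real.exp (-X)) := by gcongr
      _ = C2 * (Real.exp ((2 * (1 / 100) + 1) * X) * Real.exp (-X)) * H * (1 / 2) ^ n := by ring
      _ = C2 * Real.exp (1 / 50 * X) * H * (1 / 2) ^ n := by
          have e : Real.exp ((2 * (1 / 100) + 1) * X) * Real.exp (-X) = Real.exp (1 / 50 * X) := by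
            rw [← Real.exp_add]
            congr 1
            ring
          rw [e]
  have hpos : ∀ n : ℕ, n1 ≤ n → 0 ≤ (LL n t).re := by
    intro n hn
    have h1 : X / κ ≤ n := hn1a.trans (by exact_mod_cast hn)
    have h2 : X ≤ κ * n := by
      rw [div_le_iff₀ hκ0] at h1
      linarith
    apply hN
    · have h3 : κ * ((N : ℝ) + 1) ≤ κ * n := by linarith
      have h4 : (N : ℝ) + 1 ≤ n := le_of_mul_le_mul_left h3 hκ0
      have h5 : (N : ℝ) ≤ n := by linarith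
      exact_mod_cast h5
    · rw [abs_of_pos ht0, ← hXt]
      exact Real.exp_le_exp.2 h2
  have hcore := core hβ0 hβ2 h12 hs0' hsp hpos hEb hg hgl rfl
  -- lower bound for the value at `p`
  have hFP : Real.exp (1 / 2 * X - 2 * K) * H ≤ ‖XX (I * t + p)‖ ^ 2 := by
    have him : (I * (t : ℂ) + (p : ℂ)).im = t := by simp
    rw [Pool.Agent.H24R2.JP.ZetaTask.part1 _ (by rw [him]; exact ht0)]
    have h1 := (hB3 t p ht3 (by
      rw [Complex.norm_real, Real.norm_eq_abs, abs_of_pos hp0]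
      linarith)).2.2.2.1
    rw [Complex.ofReal_re, mul_one] at h1
    have h2 : ((1 : ℂ) / 2 + (I * (t : ℂ) + (p : ℂ))).re = 1 / 2 + p := by simp
    have h3 : ((1 : ℂ) / 2 + (I * (t : ℂ) + (p : ℂ))).im = t := by simp
    have h4 := (hB4 (1 / 2 + (I * (t : ℂ) + (p : ℂ))) (by rw [h2, hp]; linarith) (by rw [h3]; exact ht4)).2.2.1
    rw [h3] at h4
    have h5 : t ^ (-(e' / 2)) = Real.exp (-(e' / 2) * X) := by
      rw [Real.rpow_def_of_pos ht0, ← hX, mul_comm]
    rw [h5] at h4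
    rw [norm_mul, mul_pow]
    have h6 : Real.exp (1 / 2 * X - 2 * K) * H =
        (Real.exp (Om t * p - K) * ‖HH (I * t)‖) ^ 2 * Real.exp (-(e' / 2) * X) ^ 2 := by
      rw [hH, mul_pow, ← Real.exp_nat_mul, ← Real.exp_nat_mul]
      have h7 : Real.exp (1 / 2 * X - 2 * K) = Real.exp (((2 : ℕ) : ℝ) * (Om t * p - K)) *
          Real.exp (((2 : ℕ) : ℝ) * (-(e' / 2) * X)) := by
        rw [← Real.exp_add]
        congr 1
        unfold Om
        rw [← hX, hp]
        push_cast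
        ring
      rw [h7]
      ring
    rw [h6]
    gcongr
  -- lower bound for the ratio
  have hrat : Real.exp (-(3 / 10 * c1 * X) - 1) ≤ (β / p) ^ (2 * n2) := by
    have h1 := ratio_low he'0 (by linarith) hp hβ1
    refine le_trans ?_ (pow_le_pow_left₀ (Real.exp_pos _).le h1 (2 * n2))
    rw [← Real.exp_nat_mul]
    apply Real.exp_le_exp.2
    push_cast
    have h2 : 2 * (n2 : ℝ) * (6 * e') ≤ 2 * (X + 1) * (6 * e') := by gcongr
    have h3 : 2 * (X + 1) * (6 * e') = 3 / 10 * c1 * X + 12 * e' := by rw [he']; ring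
    linarith
  -- conclusion
  have hfin := hX0 X hXX0
  have hR : (β / p) ^ (2 * n2) * (‖XX (I * t + p)‖ ^ 2 - 2 * C2 * Real.exp (1 / 50 * X) * H) ≤
      2 * ((X + 1) * E) := by
    refine hcore.trans ?_
    have hE0 : 0 ≤ E := by rw [hE]; positivity
    gcongr
  have hpos1 : 0 < Real.exp (1 / 2 * X - 2 * K) * H - 2 * C2 * Real.exp (1 / 50 * X) * H := by
    have h1 : 2 * C2 * Real.exp (-(12 / 25 * X)) < Real.exp (-(2 * K)) := by
      have h2 : 0 ≤ 2 * Real.exp 1 * C1 * ((X + 1) * Real.exp (-(13 / 20 * c1 * X))) := by positivity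
      linarith
    have h3 := mul_lt_mul_of_pos_right h1 (mul_pos (Real.exp_pos (1 / 2 * X)) hHpos)
    have h4 : 2 * C2 * Real.exp (-(12 / 25 * X)) * (Real.exp (1 / 2 * X) * H) =
        2 * C2 * Real.exp (1 / 50 * X) * H := by
      have : Real.exp (1 / 50 * X) = Real.exp (-(12 / 25 * X)) * Real.exp (1 / 2 * X) := by
        rw [← Real.exp_add]
        congr 1
        ring
      rw [this]
      ring
    have h5 : Real.exp (-(2 * K)) * (Real.exp (1 / 2 * X) * H) = Real.exp (1 / 2 * X - 2 * K) * H := by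
      rw [← mul_assoc, ← Real.exp_add]
      congr 2
      ring
    rw [h4, h5] at h3
    linarith
  have hL : Real.exp (-(3 / 10 * c1 * X) - 1) *
      (Real.exp (1 / 2 * X - 2 * K) * H - 2 * C2 * Real.exp (1 / 50 * X) * H) ≤ 2 * ((X + 1) * E) := by
    refine le_trans ?_ hR
    apply mul_le_mul hrat _ hpos1.le (by positivity)
    linarith
  rw [hE] at hL
  -- divide
  have hdiv : Real.exp (-(2 * K)) ≤ 2 * C2 * Real.exp (-(12 / 25 * X)) +
      2 * Real.exp 1 * C1 * ((X + 1) * Real.exp (-(13 / 20 * c1 * X))) := by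
    have hW : 0 < Real.exp (3 / 10 * c1 * X + 1) * Real.exp (-(1 / 2 * X)) / H := by positivity
    have h1 := mul_le_mul_of_nonneg_left hL hW.le
    have e1 : Real.exp (3 / 10 * c1 * X + 1) * Real.exp (-(1 / 2 * X)) / H *
        (Real.exp (-(3 / 10 * c1 * X) - 1) *
        (Real.exp (1 / 2 * X - 2 * K) * H - 2 * C2 * Real.exp (1 / 50 * X) * H)) =
        Real.exp (-(2 * K)) - 2 * C2 * Real.exp (-(12 / 25 * X)) := by
      have a1 : Real.exp (3 / 10 * c1 * X + 1) * Real.exp (-(3 / 10 * c1 * X) - 1) = 1 := by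
        rw [← Real.exp_add]
        have : 3 / 10 * c1 * X + 1 + (-(3 / 10 * c1 * X) - 1) = 0 := by ring
        rw [this, Real.exp_zero]
      have a2 : Real.exp (-(1 / 2 * X)) * Real.exp (1 / 2 * X - 2 * K) = Real.exp (-(2 * K)) := by
        rw [← Real.exp_add]
        congr 1
        ring
      have a3 : Real.exp (-(1 / 2 * X)) * Real.exp (1 / 50 * X) = Real.exp (-(12 / 25 * X)) := by
        rw [← Real.exp_add]
        congr 1
        ring
      calc _ = (Real.exp (3 / 10 * c1 * X + 1) * Real.exp (-(3 / 10 * c1 * X) - 1)) *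
            (Real.exp (-(1 / 2 * X)) * Real.exp (1 / 2 * X - 2 * K) -
            2 * C2 * (Real.exp (-(1 / 2 * X)) * Real.exp (1 / 50 * X))) * (H / H) := by ring
        _ = _ := by rw [a1, a2, a3, div_self hHpos.ne']; ring
    have e2 : Real.exp (3 / 10 * c1 * X + 1) * Real.exp (-(1 / 2 * X)) / H *
        (2 * ((X + 1) * (C1 * Real.exp ((1 / 2 - 19 / 20 * c1) * X) * H))) =
        2 * Real.exp 1 * C1 * ((X + 1) * Real.exp (-(13 / 20 * c1 * X))) := by
      have a1 : Real.exp (3 / 10 * c1 * X + 1) * Real.exp (-(1 / 2 * X)) *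
          Real.exp ((1 / 2 - 19 / 20 * c1) * X) = Real.exp 1 * Real.exp (-(13 / 20 * c1 * X)) := by
        rw [← Real.exp_add, ← Real.exp_add, ← Real.exp_add]
        congr 1
        ring
      calc _ = 2 * C1 * (X + 1) * (Real.exp (3 / 10 * c1 * X + 1) * Real.exp (-(1 / 2 * X)) *
          Real.exp ((1 / 2 - 19 / 20 * c1) * X)) * (H / H) := by ring
        _ = _ := by rw [a1, div_self hHpos.ne']; ring
    rw [e1, e2] at h1
    linarith
  linarith

end Pool.Agent.TH231.LG
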