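import Pool.Agent.H986R2.K4.Norm

/-!
The normalised local situation, for arbitrarily large ratios `n / Om t` (a variant of `normQ`).
-/

set_option autoImplicit false

namespace Pool.Agent.TH231.LG

open Complex Filter Topology MeasureTheory Set
open Pool.Agent.H24R2.JP (XX HH Om)
open Pool.Agent.H24R2.DZ (bad hc)
open Pool.Agent.H986R2.K4

open NormAux in
theorem normW (h1 : S_HH) (h2 : S_PL) (y r0 : ℝ) (hy0 : 0 ≤ y) (hy1 : y ≤ 1 / 2) (hZ : ZB y)
    (hyr : y < r0) :
    ∃ κ : ℝ, 0 < κ ∧ κ ≤ 1 / 2 ∧ ∀ r1 R η : ℝ, r0 ≤ r1 → 3 ≤ R → 0 < η → ∃ T0 : ℝ, 2 ≤ T0 ∧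
      ∀ (t : ℝ) (n : ℕ), T0 ≤ t → r0 * Om t ≤ n → (n : ℝ) ≤ r1 * Om t →
      QQ κ R n η (fun z => XX (I * t + ((n / Om t : ℝ) : ℂ) * z)) := by
  have hr00 : 0 < r0 := by linarith
  obtain ⟨K, hK1, hHH⟩ := h1
  obtain ⟨κ, hκ⟩ : ∃ κ : ℝ, κ = (r0 - y) / (2 * r0) := ⟨_, rfl⟩
  have hκ0 : 0 < κ := by rw [hκ]; exact div_pos (by linarith) (by linarith)
  have hκ1 : κ ≤ 1 / 2 := by
    rw [hκ, div_le_iff₀ (by linarith)]
    linarith
  obtain ⟨x0, hx0⟩ : ∃ x0 : ℝ, x0 = min ((r0 + y) / 2) 1 := ⟨_, rfl⟩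
  have hx0κ : x0 ≤ r0 * (1 - κ) := by
    have : r0 * (1 - κ) = (r0 + y) / 2 := by
      rw [hκ]
      field_simp
      ring
    rw [this, hx0]
    exact min_le_left _ _
  have hx0y : y < x0 := by
    rw [hx0]
    exact lt_min (by linarith) (by linarith)
  have hx00 : 0 < x0 := by linarith
  have hx01 : x0 ≤ 1 := by rw [hx0]; exact min_le_right _ _
  have hx0r : x0 < r0 := by
    rw [hx0]
    exact lt_of_le_of_lt (min_le_left _ _) (by linarith)
  refine ⟨κ, hκ0, hκ1, ?_⟩
  intro r1 R η hr01 hR hη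
  obtain ⟨A, hA⟩ : ∃ A : ℝ, A = r1 + 2 := ⟨_, rfl⟩
  have hA2 : 2 ≤ A := by linarith
  obtain ⟨ε, hε⟩ : ∃ ε : ℝ, ε = min (x0 - y) (min (η * r0 / (8 * A)) (κ * r0 / 24)) := ⟨_, rfl⟩
  have hε0 : 0 < ε := by
    rw [hε]
    refine lt_min (by linarith) (lt_min (by positivity) (by positivity))
  have hε1 : ε ≤ x0 - y := by rw [hε]; exact min_le_left _ _
  have hε2 : ε ≤ η * r0 / (8 * A) := by rw [hε]; exact (min_le_right _ _).trans (min_le_left _ _)
  have hε3 : ε ≤ κ * r0 / 24 := by rw [hε]; exact (min_le_right _ _).trans (min_le_right _ _)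
  have hε4 : ε ≤ 1 := by linarith
  obtain ⟨t1, ht1, hz⟩ := hZ ε hε0
  obtain ⟨T1, hT1, hHR⟩ := hHH (A * R) (by nlinarith)
  obtain ⟨C', T2, hC', hT2, hPL⟩ := h2 x0 ε 1 t1 (A * R) hx00 hx01 hε0.le hε4 one_pos (by linarith)
    (by nlinarith) (by
      intro t ht
      have e1 : ((1 : ℂ) / 2 + (x0 : ℂ) + t * I).re = 1 / 2 + x0 := by simp
      have e2 : ((1 : ℂ) / 2 + (x0 : ℂ) + t * I).im = t := by simp
      have := (hz (1 / 2 + x0 + t * I) (by rw [e1]; linarith) (by rw [e2]; exact ht)).2.2.2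
      rw [e2] at this
      rw [one_mul]
      exact this)
  obtain ⟨C2, hC2⟩ : ∃ C2 : ℝ, C2 = max C' (Real.exp (K * (A * R))) := ⟨_, rfl⟩
  have hC20 : 0 < C2 := by rw [hC2]; exact lt_of_lt_of_le hC' (le_max_left _ _)
  obtain ⟨M, hM⟩ : ∃ M : ℝ, M = max (4 * A * K / (η * r0))
    (8 * (Real.log C2 + K * (A * R)) / (κ * r0)) := ⟨_, rfl⟩
  obtain ⟨T0, hT0⟩ : ∃ T0 : ℝ, T0 = max (max T1 T2) (max (t1 + 2 * (A * R)) (Real.exp M)) := ⟨_, rfl⟩
  have hT01 : T1 ≤ T0 := by rw [hT0]; exact (le_max_left _ _).trans (le_max_left _ _)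
  have hT02 : T2 ≤ T0 := by rw [hT0]; exact (le_max_right _ _).trans (le_max_left _ _)
  have hT03 : t1 + 2 * (A * R) ≤ T0 := by rw [hT0]; exact (le_max_left _ _).trans (le_max_right _ _)
  have hT04 : Real.exp M ≤ T0 := by rw [hT0]; exact (le_max_right _ _).trans (le_max_right _ _)
  have hAR : 6 ≤ A * R := by nlinarith
  refine ⟨T0, by linarith, ?_⟩
  intro t n ht hn1 hn2
  have ht0 : 0 < t := by linarith
  have ht2 : 2 ≤ t := by linarith
  have hl2 : 0 < Real.log 2 := Real.log_pos (by norm_num)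
  have hll : Real.log 2 ≤ Real.log t := Real.log_le_log (by norm_num) ht2
  have hlt : 0 < Real.log t := by linarith
  have hOm : Om t = Real.log t / 2 := rfl
  have hOm0 : 0 < Om t := by rw [hOm]; linarith
  have hMt : M ≤ Real.log t := by
    rw [Real.le_log_iff_exp_le ht0]
    linarith
  obtain ⟨r, hr⟩ : ∃ r : ℝ, r = n / Om t := ⟨_, rfl⟩
  have hrO : r * Om t = n := by rw [hr]; exact div_mul_cancel₀ _ hOm0.ne'
  have hr1 : r0 ≤ r := by
    rw [hr, le_div_iff₀ hOm0]
    exact hn1
  have hr2 : r ≤ r1 := by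
    rw [hr, div_le_iff₀ hOm0]
    exact hn2
  have hr0' : 0 < r := by linarith
  have hn0 : (0 : ℝ) ≤ n := Nat.cast_nonneg n
  -- control at a point far to the right
  have key : ∀ w : ℂ, x0 ≤ w.re → ‖w‖ ≤ A * R → 0 < (I * t + w).im ∧
      riemannZeta (1 / 2 + (I * t + w)) ≠ 0 ∧
      ‖logDeriv riemannZeta (1 / 2 + (I * t + w))‖ ≤ ε * Real.log (2 * t) ∧
      ‖riemannZeta (1 / 2 + (I * t + w))‖ ≤ (2 * t) ^ ε := by
    intro w hw hwR
    have e1 : (1 / 2 + (I * t + w) : ℂ).re = 1 / 2 + w.re := by simp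
    have e2 : (1 / 2 + (I * t + w) : ℂ).im = t + w.im := by simp
    have e3 : (I * t + w : ℂ).im = t + w.im := by simp
    have h3 := (Complex.abs_im_le_norm w).trans hwR
    rw [abs_le] at h3
    obtain ⟨a1, a2, a3, a4⟩ := hz (1 / 2 + (I * t + w)) (by rw [e1]; linarith) (by rw [e2]; linarith)
    rw [e2] at a2 a3 a4
    have h4 : 0 < t + w.im := by linarith
    refine ⟨by rw [e3]; linarith, a1, a2.trans ?_, a4.trans ?_⟩
    · exact mul_le_mul_of_nonneg_left (Real.log_le_log h4 (by linarith)) hε0.le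
    · exact Real.rpow_le_rpow h4.le (by linarith) hε0.le
  have hrw : ∀ z : ℂ, ‖z‖ ≤ R → ‖(r : ℂ) * z‖ ≤ A * R := by
    intro z hz
    rw [norm_mul, Complex.norm_real, Real.norm_eq_abs, abs_of_pos hr0']
    have : r ≤ A := by linarith
    exact mul_le_mul this hz (norm_nonneg _) (by linarith)
  have hre : ∀ z : ℂ, ((r : ℂ) * z).re = r * z.re := fun z => by simp
  have him : ∀ z : ℂ, ((r : ℂ) * z).im = r * z.im := fun z => by simp
  have hR0 : 0 < R := by linarith
  have hX : ∀ p : ℂ, 0 < p.im → XX p = HH p * riemannZeta (1 / 2 + p) :=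
    Pool.Agent.H24R2.JP.ZetaTask.part1
  have h2t : Real.log (2 * t) ≤ 2 * Real.log t := by
    rw [Real.log_mul two_ne_zero ht0.ne']
    linarith
  rw [← hr]
  constructor
  · -- diff
    exact Pool.Agent.H24R2.JP.B1h.XX_diff.comp ((differentiable_id.const_mul _).const_add _)
  · -- symm
    intro z
    have e : I * t + (r : ℂ) * (-((starRingEnd ℂ) z)) = -((starRingEnd ℂ) (I * t + r * z)) := by
      rw [map_add, map_mul, map_mul, Complex.conj_I, Complex.conj_ofReal, Complex.conj_ofReal]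
      ring
    show XX (I * t + (r : ℂ) * (-((starRingEnd ℂ) z))) = (starRingEnd ℂ) (XX (I * t + r * z))
    rw [e, Pool.Agent.H24R2.DZ.XBAux.xsymm]
  · -- far
    intro z hz1 hz2
    have hw1 : x0 ≤ ((r : ℂ) * z).re := by
      rw [hre]
      exact hx0κ.trans (mul_le_mul hr1 hz1 (by linarith) hr0'.le)
    obtain ⟨k1, k2, k3, -⟩ := key ((r : ℂ) * z) hw1 (hrw z hz2)
    obtain ⟨g1, g2, g3, -, -⟩ := hHR t ((r : ℂ) * z) (by linarith) (hrw z hz2)
    constructor
    · show XX (I * t + (r : ℂ) * z) ≠ 0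
      rw [hX _ k1]
      exact mul_ne_zero g2 k2
    · rw [logDeriv_scale, logDeriv_XX k1 g1 g2 k2]
      have e1 : (r : ℂ) * (logDeriv HH (I * t + r * z) +
          logDeriv riemannZeta (1 / 2 + (I * t + r * z))) - (n : ℂ) =
          r * ((logDeriv HH (I * t + r * z) - (Om t : ℂ)) +
            logDeriv riemannZeta (1 / 2 + (I * t + r * z))) := by
        have : (n : ℂ) = (r : ℂ) * (Om t : ℂ) := by
          rw [← Complex.ofReal_mul, hrO, Complex.ofReal_natCast]
        rw [this]
        ring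
      rw [e1, norm_mul, Complex.norm_real, Real.norm_eq_abs, abs_of_pos hr0']
      have e2 := norm_add_le (logDeriv HH (I * t + r * z) - (Om t : ℂ))
        (logDeriv riemannZeta (1 / 2 + (I * t + r * z)))
      have e3 : K ≤ η * r0 / (4 * A) * Real.log t := by
        have h3 : 4 * A * K / (η * r0) ≤ Real.log t := by
          refine le_trans ?_ hMt
          rw [hM]
          exact le_max_left _ _
        rw [div_le_iff₀ (by positivity)] at h3
        rw [div_mul_eq_mul_div, le_div_iff₀ (by positivity)]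
        linarith
      have e4 : ε * Real.log (2 * t) ≤ η * r0 / (4 * A) * Real.log t := by
        have h3 : ε * Real.log (2 * t) ≤ ε * (2 * Real.log t) :=
          mul_le_mul_of_nonneg_left h2t hε0.le
        have h4 : ε * (2 * Real.log t) ≤ (η * r0 / (8 * A)) * (2 * Real.log t) :=
          mul_le_mul_of_nonneg_right hε2 (by linarith)
        have h5 : (η * r0 / (8 * A)) * (2 * Real.log t) = η * r0 / (4 * A) * Real.log t := by
          field_simp
          norm_num
        linarith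
      have e5 : ‖(logDeriv HH (I * t + r * z) - (Om t : ℂ)) +
          logDeriv riemannZeta (1 / 2 + (I * t + r * z))‖ ≤ η * r0 / (2 * A) * Real.log t := by
        have h5 : η * r0 / (2 * A) * Real.log t = η * r0 / (4 * A) * Real.log t +
            η * r0 / (4 * A) * Real.log t := by
          field_simp
          norm_num
        rw [h5]
        linarith
      have e6 : r0 * (Real.log t / 2) ≤ n := by rw [← hOm]; exact hn1
      calc r * ‖(logDeriv HH (I * t + r * z) - (Om t : ℂ)) +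
            logDeriv riemannZeta (1 / 2 + (I * t + r * z))‖
          ≤ A * (η * r0 / (2 * A) * Real.log t) :=
            mul_le_mul (by linarith) e5 (norm_nonneg _) (by linarith)
        _ = η * (r0 * (Real.log t / 2)) := by
            field_simp
        _ ≤ η * n := mul_le_mul_of_nonneg_left e6 hη.le
  · -- near
    have hH0 : 0 < ‖HH (I * t)‖ := by
      have := (hHR t 0 (by linarith) (by rw [norm_zero]; linarith)).2.1
      rw [add_zero] at this
      exact norm_pos_iff.2 this
    -- upper bound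
    have hup0 : ∀ z : ℂ, 0 ≤ z.re → z.re ≤ 1 - κ → ‖z‖ ≤ R → ‖XX (I * t + (r : ℂ) * z)‖ ≤
        C2 * (2 * t) ^ ε * (Real.exp (n * (1 - κ)) * ‖HH (I * t)‖) := by
      intro z hz0 hz1 hz2
      have hwR := hrw z hz2
      rcases le_total (((r : ℂ) * z).re) x0 with hw | hw
      · have h3 := hPL t ((r : ℂ) * z) (by linarith) (by
          rw [abs_le]
          refine ⟨?_, hw⟩
          rw [hre]
          have : 0 ≤ r * z.re := by positivity
          linarith) ((Complex.abs_im_le_norm _).trans hwR)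
        refine h3.trans ?_
        have h4 : t ^ ε ≤ (2 * t) ^ ε := Real.rpow_le_rpow ht0.le (by linarith) hε0.le
        have h5 : C' ≤ C2 := by rw [hC2]; exact le_max_left _ _
        have h6 : Real.exp (x0 * Om t) ≤ Real.exp (n * (1 - κ)) := by
          apply Real.exp_le_exp.2
          calc x0 * Om t ≤ r0 * (1 - κ) * Om t := mul_le_mul_of_nonneg_right hx0κ hOm0.le
            _ = (1 - κ) * (r0 * Om t) := by ring
            _ ≤ (1 - κ) * n := mul_le_mul_of_nonneg_left hn1 (by linarith)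
            _ = _ := by ring
        have h7 : 0 ≤ t ^ ε := Real.rpow_nonneg ht0.le _
        exact mul_le_mul (mul_le_mul h5 h4 h7 hC20.le)
          (mul_le_mul_of_nonneg_right h6 hH0.le) (by positivity) (by positivity)
      · obtain ⟨k1, k2, -, k4⟩ := key ((r : ℂ) * z) hw hwR
        obtain ⟨-, -, -, -, g5⟩ := hHR t ((r : ℂ) * z) (by linarith) hwR
        rw [hX _ k1, norm_mul]
        have h5 : Real.exp (K * (A * R)) ≤ C2 := by rw [hC2]; exact le_max_right _ _
        have h6 : Om t * ((r : ℂ) * z).re = n * z.re := by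
          rw [hre, ← hrO]; ring
        have h7 : Real.exp (Om t * ((r : ℂ) * z).re + K * (A * R)) ≤
            Real.exp (n * (1 - κ)) * C2 := by
          rw [Real.exp_add]
          refine mul_le_mul ?_ h5 (Real.exp_pos _).le (Real.exp_pos _).le
          apply Real.exp_le_exp.2
          rw [h6]
          exact mul_le_mul_of_nonneg_left hz1 hn0
        calc ‖HH (I * t + r * z)‖ * ‖riemannZeta (1 / 2 + (I * t + r * z))‖
            ≤ (Real.exp (n * (1 - κ)) * C2 * ‖HH (I * t)‖) * (2 * t) ^ ε := by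
              refine mul_le_mul (g5.trans (mul_le_mul_of_nonneg_right h7 hH0.le)) k4
                (norm_nonneg _) (by positivity)
          _ = _ := by ring
    have hup : ∀ z : ℂ, |z.re| ≤ 1 - κ → ‖z‖ ≤ R → ‖XX (I * t + (r : ℂ) * z)‖ ≤
        C2 * (2 * t) ^ ε * (Real.exp (n * (1 - κ)) * ‖HH (I * t)‖) := by
      intro z hz1 hz2
      rw [abs_le] at hz1
      rcases le_total 0 z.re with h | h
      · exact hup0 z h hz1.2 hz2
      · have h3 := hup0 (-((starRingEnd ℂ) z)) (by simpa using h) (by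
          rw [Complex.neg_re, Complex.conj_re]; linarith) (by
          rw [norm_neg, RCLike.norm_conj]; exact hz2)
        have e : I * t + (r : ℂ) * (-((starRingEnd ℂ) z)) = -((starRingEnd ℂ) (I * t + r * z)) := by
          rw [map_add, map_mul, map_mul, Complex.conj_I, Complex.conj_ofReal, Complex.conj_ofReal]
          ring
        rw [e, Pool.Agent.H24R2.DZ.XBAux.xsymm, RCLike.norm_conj] at h3
        exact h3
    -- lower bound
    have hlow : Real.exp (n - K * (A * R)) * ‖HH (I * t)‖ * t ^ (-ε) ≤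
        ‖XX (I * t + (r : ℂ) * 1)‖ := by
      have hr' : ‖(r : ℂ) * 1‖ ≤ A * R := hrw 1 (by rw [norm_one]; linarith)
      have hre1 : ((r : ℂ) * 1).re = r := by simp
      obtain ⟨k1, k2, -, -⟩ := key ((r : ℂ) * 1) (by rw [hre1]; linarith) hr'
      obtain ⟨-, -, -, g4, -⟩ := hHR t ((r : ℂ) * 1) (by linarith) hr'
      have e1 : (1 / 2 + (I * t + (r : ℂ) * 1) : ℂ).re = 1 / 2 + r := by simp
      have e2 : (1 / 2 + (I * t + (r : ℂ) * 1) : ℂ).im = t := by simp
      have h3 := (hz (1 / 2 + (I * t + (r : ℂ) * 1)) (by rw [e1]; linarith)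
        (by rw [e2]; linarith)).2.2.1
      rw [e2] at h3
      rw [hX _ k1, norm_mul]
      have h4 : Om t * ((r : ℂ) * 1).re = n := by rw [hre1, mul_comm]; exact hrO
      rw [h4] at g4
      exact mul_le_mul g4 h3 (Real.rpow_nonneg ht0.le _) (norm_nonneg _)
    intro z hz1 hz2
    refine (hup z hz1 hz2).trans ?_
    refine le_trans ?_ (mul_le_mul_of_nonneg_right hlow (Real.exp_pos _).le)
    -- comparison of exponentials
    have e1 : (2 * t) ^ ε = Real.exp (ε * Real.log (2 * t)) := by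
      rw [Real.rpow_def_of_pos (by linarith), mul_comm]
    have e2 : t ^ (-ε) = Real.exp (-(ε * Real.log t)) := by
      rw [Real.rpow_def_of_pos ht0]
      congr 1
      ring
    have e3 : C2 = Real.exp (Real.log C2) := (Real.exp_log hC20).symm
    have e4 : Real.log C2 + K * (A * R) ≤ κ * r0 / 8 * Real.log t := by
      have h3 : 8 * (Real.log C2 + K * (A * R)) / (κ * r0) ≤ Real.log t := by
        refine le_trans ?_ hMt
        rw [hM]
        exact le_max_right _ _
      rw [div_le_iff₀ (by positivity)] at h3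
      linarith
    have e5 : ε * Real.log (2 * t) + ε * Real.log t ≤ κ * r0 / 8 * Real.log t := by
      have h3 : ε * Real.log (2 * t) ≤ ε * (2 * Real.log t) :=
        mul_le_mul_of_nonneg_left h2t hε0.le
      have h4 : ε * (3 * Real.log t) ≤ (κ * r0 / 24) * (3 * Real.log t) :=
        mul_le_mul_of_nonneg_right hε3 (by linarith)
      linarith
    have e6 : κ * r0 / 4 * Real.log t ≤ κ / 2 * n := by
      have h3 : r0 * (Real.log t / 2) ≤ n := by rw [← hOm]; exact hn1
      have h4 := mul_le_mul_of_nonneg_left h3 (by linarith : 0 ≤ κ / 2)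
      linarith
    have e7 : C2 * (2 * t) ^ ε * (Real.exp (n * (1 - κ)) * ‖HH (I * t)‖) =
        Real.exp (Real.log C2 + ε * Real.log (2 * t) + n * (1 - κ)) * ‖HH (I * t)‖ := by
      rw [Real.exp_add, Real.exp_add, ← e3, e1]
      ring
    have e8 : Real.exp (n - K * (A * R)) * ‖HH (I * t)‖ * t ^ (-ε) * Real.exp (-(κ / 2 * n)) =
        Real.exp ((n - K * (A * R)) + (-(ε * Real.log t)) + (-(κ / 2 * n))) * ‖HH (I * t)‖ := by
      rw [Real.exp_add, Real.exp_add, e2]
      ring
    rw [e7, e8]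
    apply mul_le_mul_of_nonneg_right _ hH0.le
    apply Real.exp_le_exp.2
    nlinarith

end Pool.Agent.TH231.LG
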