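import Pool.Agent.TH231.LG.Base2

/-!
The Laguerre expressions of the real function `Ξ` and the coefficients `LL`.
-/

set_option autoImplicit false

namespace Pool.Agent.TH231.LG

open Complex Filter Topology Set
open Pool.Agent.H24R2.JP (XX HH Om FF Par gam)

theorem LL_leibniz (n : ℕ) (t : ℝ) : LL n t = ∑ j ∈ Finset.range (2 * n + 1),
    (-1 : ℂ) ^ j * ((2 * n).choose j : ℂ) / ((2 * n).factorial : ℂ) *
      (iteratedDeriv j XX (I * t) * iteratedDeriv (2 * n - j) XX (I * t)) := by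
  have h1 : iteratedDeriv (2 * n) (Gt t) 0 = ∑ i ∈ Finset.range (2 * n + 1),
      ((2 * n).choose i : ℂ) * iteratedDeriv i (fun u : ℂ => XX (I * t + u)) 0 *
        iteratedDeriv (2 * n - i) (fun u : ℂ => XX (I * t - u)) 0 := by
    have h2 : Differentiable ℂ fun u : ℂ => XX (I * t + u) := XX_diff.comp (differentiable_id.const_add _)
    have h3 : Differentiable ℂ fun u : ℂ => XX (I * t - u) := XX_diff.comp (differentiable_id.const_sub _)
    exact iteratedDeriv_mul (x := 0) h2.contDiff.contDiffAt h3.contDiff.contDiffAt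
  unfold LL
  rw [h1, Finset.sum_div]
  apply Finset.sum_congr rfl
  intro j hj
  rw [Finset.mem_range] at hj
  rw [iteratedDeriv_comp_const_add, iteratedDeriv_comp_const_sub]
  simp only [add_zero, sub_zero, smul_eq_mul]
  have e : (-1 : ℂ) ^ (2 * n - j) = (-1) ^ j := by
    have h4 : (-1 : ℂ) ^ (2 * n - j) * (-1) ^ j = 1 := by
      rw [← pow_add, Nat.sub_add_cancel (by omega), pow_mul]
      norm_num
    have h5 : (-1 : ℂ) ^ j * (-1) ^ j = 1 := by
      rw [← mul_pow]
      norm_num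
    have h6 : (-1 : ℂ) ^ j ≠ 0 := pow_ne_zero _ (by norm_num)
    exact mul_right_cancel₀ h6 (h4.trans h5.symm)
  rw [e]
  ring

theorem LL_cont (n : ℕ) : Continuous (LL n) := by
  have h : LL n = fun t : ℝ => ∑ j ∈ Finset.range (2 * n + 1),
    (-1 : ℂ) ^ j * ((2 * n).choose j : ℂ) / ((2 * n).factorial : ℂ) *
      (iteratedDeriv j XX (I * t) * iteratedDeriv (2 * n - j) XX (I * t)) := funext (LL_leibniz n)
  rw [h]
  apply continuous_finsetSum
  intro j _
  have h1 : ∀ k : ℕ, Continuous fun t : ℝ => iteratedDeriv k XX (I * t) := by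
    intro k
    have : Continuous fun t : ℝ => I * (t : ℂ) := by fun_prop
    exact (iter_diff XX_diff k).continuous.comp this
  exact continuous_const.mul ((h1 j).mul (h1 _))

theorem XX_even_pos (k : ℕ) : 0 < (iteratedDeriv (2 * k) XX 0).re := by
  have h := Pool.Agent.H24R2.JP.gamT.1 k
  unfold gam at h
  have h1 : (0 : ℝ) < (k.factorial : ℝ) / ((2 * k).factorial : ℝ) := by
    have := k.factorial_pos
    have := (2 * k).factorial_pos
    positivity
  exact (mul_pos_iff_of_pos_left h1).1 h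

theorem LL_zero_pos (n : ℕ) : 0 < (LL n 0).re := by
  have hterm : ∀ j : ℕ, j ∈ Finset.range (2 * n + 1) →
      0 ≤ ((-1 : ℂ) ^ j * ((2 * n).choose j : ℂ) / ((2 * n).factorial : ℂ) *
      (iteratedDeriv j XX 0 * iteratedDeriv (2 * n - j) XX 0)).re := by
    intro j hj
    rw [Finset.mem_range] at hj
    rcases Nat.even_or_odd' j with ⟨k, hk | hk⟩
    · have e2 : 2 * n - j = 2 * (n - k) := by omega
      rw [e2, hk, ← Pool.Agent.H24R2.JP.B1h.even_real k, ← Pool.Agent.H24R2.JP.B1h.even_real (n - k)]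
      have e3 : ((-1 : ℂ) ^ (2 * k) * ((2 * n).choose (2 * k) : ℂ) / ((2 * n).factorial : ℂ) *
          ((((iteratedDeriv (2 * k) XX 0).re : ℝ) : ℂ) * (((iteratedDeriv (2 * (n - k)) XX 0).re : ℝ) : ℂ))) =
          ((((2 * n).choose (2 * k) : ℝ) / ((2 * n).factorial : ℝ) *
          ((iteratedDeriv (2 * k) XX 0).re * (iteratedDeriv (2 * (n - k)) XX 0).re) : ℝ) : ℂ) := by
        rw [pow_mul]
        push_cast
        norm_num
      rw [e3, Complex.ofReal_re]
      have := XX_even_pos k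
      have := XX_even_pos (n - k)
      positivity
    · rw [hk, Pool.Agent.H24R2.JP.B1h.odd_zero k]
      simp
  rw [LL_leibniz, Complex.ofReal_zero, mul_zero, Complex.re_sum]
  have h0 : 0 < ((-1 : ℂ) ^ 0 * ((2 * n).choose 0 : ℂ) / ((2 * n).factorial : ℂ) *
      (iteratedDeriv 0 XX 0 * iteratedDeriv (2 * n - 0) XX 0)).re := by
    have e0 : iteratedDeriv 0 XX 0 = iteratedDeriv (2 * 0) XX 0 := rfl
    rw [Nat.sub_zero, e0, ← Pool.Agent.H24R2.JP.B1h.even_real 0, ← Pool.Agent.H24R2.JP.B1h.even_real n,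
      Nat.choose_zero_right, pow_zero]
    have e3 : ((1 : ℂ) * ((1 : ℕ) : ℂ) / ((2 * n).factorial : ℂ) *
        ((((iteratedDeriv (2 * 0) XX 0).re : ℝ) : ℂ) * (((iteratedDeriv (2 * n) XX 0).re : ℝ) : ℂ))) =
        ((1 / ((2 * n).factorial : ℝ) *
        ((iteratedDeriv (2 * 0) XX 0).re * (iteratedDeriv (2 * n) XX 0).re) : ℝ) : ℂ) := by
      push_cast
      ring
    rw [e3, Complex.ofReal_re]
    have := XX_even_pos 0
    have := XX_even_pos n
    have := (2 * n).factorial_pos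
    positivity
  exact lt_of_lt_of_le h0 (Finset.single_le_sum hterm (Finset.mem_range.2 (by omega)))

/-- positivity from nonvanishing -/
theorem LL_pos {n : ℕ} {T : ℝ} (h : ∀ t : ℝ, 0 ≤ t → t ≤ T → LL n t ≠ 0) {t : ℝ} (ht : |t| ≤ T) :
    0 < (LL n t).re := by
  have hne : ∀ s : ℝ, 0 ≤ s → s ≤ T → (LL n s).re ≠ 0 := by
    intro s h1 h2 h3
    apply h s h1 h2
    rw [← LL_real, h3, Complex.ofReal_zero]
  have key : ∀ s : ℝ, 0 ≤ s → s ≤ T → 0 < (LL n s).re := by
    intro s h1 h2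
    by_contra hneg
    push Not at hneg
    have hc : ContinuousOn (fun s : ℝ => (LL n s).re) (Icc 0 s) :=
      (Complex.continuous_re.comp (LL_cont n)).continuousOn
    have h4 := intermediate_value_Icc' h1 hc
    obtain ⟨x, hx1, hx2⟩ := h4 ⟨hneg, (LL_zero_pos n).le⟩
    exact hne x hx1.1 (hx1.2.trans h2) hx2
  rcases le_total 0 t with h1 | h1
  · rw [abs_of_nonneg h1] at ht
    exact key t h1 ht
  · rw [abs_of_nonpos h1] at ht
    have := key (-t) (by linarith) ht
    rwa [LL_neg] at this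

/-! ## The real function -/

/-- `Ξ` on the real line, as `XX (i x) / 8`. -/
noncomputable def Xr (x : ℝ) : ℝ := (XX (I * x)).re / 8

theorem Xr_iter (j : ℕ) (x : ℝ) :
    ((iteratedDeriv j Xr x : ℝ) : ℂ) = I ^ j * iteratedDeriv j XX (I * x) / 8 := by
  obtain ⟨h, hh⟩ : ∃ h : ℂ → ℂ, h = fun z : ℂ => XX (I * z) / 8 := ⟨_, rfl⟩
  have hd : Differentiable ℂ h := by
    rw [hh]
    exact (XX_diff.comp (differentiable_id.const_mul I)).div_const 8
  have hiter : ∀ (j : ℕ) (z : ℂ), iteratedDeriv j h z = I ^ j * iteratedDeriv j XX (I * z) / 8 := by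
    intro j z
    rw [hh, iteratedDeriv_div_const, iteratedDeriv_comp_const_mul XX_diff.contDiff]
  have hconj : ∀ z, h ((starRingEnd ℂ) z) = (starRingEnd ℂ) (h z) := by
    intro z
    rw [hh]
    show XX (I * (starRingEnd ℂ) z) / 8 = (starRingEnd ℂ) (XX (I * z) / 8)
    rw [map_div₀, ← Pool.Agent.H24R2.JP.B1h.XX_conj, map_mul, Complex.conj_I, map_ofNat,
      neg_mul, Pool.Agent.H24R2.JP.B1h.XX_neg]
  have hreal : ∀ (j : ℕ) (x : ℝ), (((iteratedDeriv j h x).re : ℝ) : ℂ) = iteratedDeriv j h x := by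
    intro j x
    have h1 := Pool.Agent.H24R2.JP.B1h.iter_conj h hconj j (x : ℂ)
    rw [Complex.conj_ofReal] at h1
    exact Complex.conj_eq_iff_re.1 h1.symm
  have key : ∀ j : ℕ, iteratedDeriv j Xr = fun x : ℝ => (iteratedDeriv j h x).re := by
    intro j
    induction j with
    | zero =>
      funext x
      rw [iteratedDeriv_zero, iteratedDeriv_zero, hh]
      unfold Xr
      have : (XX (I * x) / 8 : ℂ) = XX (I * x) / ((8 : ℝ) : ℂ) := by norm_num
      show (XX (I * x)).re / 8 = (XX (I * x) / 8).re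
      rw [this, Complex.div_ofReal_re]
    | succ j ih =>
      funext x
      rw [iteratedDeriv_succ, iteratedDeriv_succ, ih]
      exact ((iter_diff hd j) (x : ℂ)).hasDerivAt.real_of_complex.deriv
  rw [key j]
  rw [hreal, hiter]

/-- The Laguerre expression of order `n`. -/
noncomputable def Lr (n : ℕ) (x : ℝ) : ℝ := ∑ j ∈ Finset.range (2 * n + 1),
  (-1 : ℝ) ^ (j + n) * ((2 * n).choose j : ℝ) / ((2 * n).factorial : ℝ) *
    (iteratedDeriv j Xr x * iteratedDeriv (2 * n - j) Xr x)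

theorem Lr_eq (n : ℕ) (x : ℝ) : Lr n x = (LL n x).re / 64 := by
  have h : ((Lr n x : ℝ) : ℂ) = LL n x / 64 := by
    unfold Lr
    rw [LL_leibniz, Finset.sum_div]
    push_cast
    apply Finset.sum_congr rfl
    intro j hj
    rw [Finset.mem_range] at hj
    rw [Xr_iter, Xr_iter]
    have e : I ^ j * I ^ (2 * n - j) = (-1) ^ n := by
      rw [← pow_add, Nat.add_sub_cancel' (by omega), pow_mul, Complex.I_sq]
    have e2 : (-1 : ℂ) ^ n * (-1) ^ n = 1 := by
      rw [← mul_pow]
      norm_num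
    calc (-1 : ℂ) ^ (j + n) * ((2 * n).choose j : ℂ) / ((2 * n).factorial : ℂ) *
          (I ^ j * iteratedDeriv j XX (I * x) / 8 * (I ^ (2 * n - j) * iteratedDeriv (2 * n - j) XX (I * x) / 8))
        = (-1 : ℂ) ^ j * ((2 * n).choose j : ℂ) / ((2 * n).factorial : ℂ) *
          (iteratedDeriv j XX (I * x) * iteratedDeriv (2 * n - j) XX (I * x)) / 64 *
          ((-1) ^ n * (I ^ j * I ^ (2 * n - j))) := by
          rw [pow_add]
          ring
      _ = _ := by
          rw [e, e2, mul_one]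
  rw [← LL_real] at h
  have h2 : ((((LL n x).re : ℝ) : ℂ) / 64) = (((LL n x).re / 64 : ℝ) : ℂ) := by push_cast; rfl
  rw [h2] at h
  exact_mod_cast h

end Pool.Agent.TH231.LG
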