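import Pool.Agent.H986R2.K4.All
import Pool.Agent.TH231.LG.NormW
import Pool.Agent.TH231.LG.Base2

/-!
The windows: no zeros of the coefficients `LL n t` for `n / Om t` in a compact interval to the right of
the edge, and no zeros of the derivatives of `Ft t` in the unit disc if `n / Om t` is large.
-/

set_option autoImplicit false

namespace Pool.Agent.TH231.LG

open Complex Filter Topology MeasureTheory Set
open Pool.Agent.H24R2.JP (XX HH Om FF Par gam)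
open Pool.Agent.H986R2.K4

/-- the reflected function -/
theorem refl_log {F : ℂ → ℂ} (hs : ∀ z : ℂ, F (-((starRingEnd ℂ) z)) = (starRingEnd ℂ) (F z))
    (z : ℂ) : F (-z) = (starRingEnd ℂ) (F ((starRingEnd ℂ) z)) ∧
    logDeriv (fun w => F (-w)) z = (starRingEnd ℂ) (logDeriv F ((starRingEnd ℂ) z)) := by
  have h1 : ∀ w, F (-w) = (starRingEnd ℂ) (F ((starRingEnd ℂ) w)) := by
    intro w
    have := hs ((starRingEnd ℂ) w)
    rwa [Complex.conj_conj] at this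
  refine ⟨h1 z, ?_⟩
  have h2 : (fun w => F (-w)) = (starRingEnd ℂ) ∘ F ∘ (starRingEnd ℂ) := funext h1
  rw [logDeriv_apply, logDeriv_apply, h2, deriv_conj_conj, map_div₀, h1 z]
  rfl

theorem W0 {κ R η : ℝ} {n : ℕ} {F : ℂ → ℂ} (h : QQ κ R n η F) :
    QQ κ R (2 * n) η (fun z => F z * F (-z)) := by
  have hdn : Differentiable ℂ fun z => F (-z) := h.diff.comp differentiable_neg
  refine ⟨h.diff.mul hdn, ?_, ?_, ?_⟩
  · intro z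
    rw [map_mul, ← h.symm z, neg_neg]
    have := h.symm (-z)
    rw [map_neg, neg_neg] at this
    rw [this]
  · intro z hz1 hz2
    obtain ⟨a1, a2⟩ := h.far z hz1 hz2
    obtain ⟨b1, b2⟩ := h.far ((starRingEnd ℂ) z) (by simpa using hz1) (by rw [RCLike.norm_conj]; exact hz2)
    obtain ⟨c1, c2⟩ := refl_log h.symm z
    have c3 : F (-z) ≠ 0 := by
      rw [c1]
      exact fun h0 => b1 ((map_eq_zero _).1 h0)
    refine ⟨mul_ne_zero a1 c3, ?_⟩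
    rw [logDeriv_mul z a1 c3 (h.diff z) (hdn z), c2]
    have e : logDeriv F z + (starRingEnd ℂ) (logDeriv F ((starRingEnd ℂ) z)) - ((2 * n : ℕ) : ℂ) =
        (logDeriv F z - n) + (starRingEnd ℂ) (logDeriv F ((starRingEnd ℂ) z) - n) := by
      rw [map_sub, map_natCast]
      push_cast
      ring
    rw [e]
    refine (norm_add_le _ _).trans ?_
    rw [RCLike.norm_conj]
    push_cast
    linarith
  · intro z hz1 hz2
    have a1 := h.near z hz1 hz2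
    have a2 := h.near (-z) (by rw [Complex.neg_re, abs_neg]; exact hz1) (by rw [norm_neg]; exact hz2)
    have a3 : ‖F (-1)‖ = ‖F 1‖ := by
      have := h.symm 1
      rw [map_one] at this
      rw [this, RCLike.norm_conj]
    rw [norm_mul, norm_mul, a3]
    calc ‖F z‖ * ‖F (-z)‖ ≤ (‖F 1‖ * Real.exp (-(κ / 2 * n))) * (‖F 1‖ * Real.exp (-(κ / 2 * n))) := by
          gcongr
      _ = ‖F 1‖ * ‖F 1‖ * Real.exp (-(κ / 2 * ((2 * n : ℕ) : ℝ))) := by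
          have : Real.exp (-(κ / 2 * ((2 * n : ℕ) : ℝ))) =
              Real.exp (-(κ / 2 * n)) * Real.exp (-(κ / 2 * n)) := by
            rw [← Real.exp_add]
            congr 1
            push_cast
            ring
          rw [this]
          ring

/-- the rescaled product -/
theorem Gt_scale (t r : ℝ) : (fun z : ℂ => XX (I * t + (r : ℂ) * z) * XX (I * t + (r : ℂ) * (-z))) =
    fun z => Gt t ((r : ℂ) * z) := by
  funext z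
  unfold Gt
  have : I * (t : ℂ) + (r : ℂ) * (-z) = I * t - r * z := by ring
  rw [this]

theorem W1 {κ R : ℝ} (hκ0 : 0 < κ) (hκ1 : κ ≤ 1 / 2) (hR : 3 ≤ R) :
    ∃ η : ℝ, ∃ n0 : ℕ, 0 < η ∧ ∀ (n : ℕ) (t r : ℝ), n0 ≤ n → 0 < r →
      QQ κ R (2 * n) η (fun z => Gt t ((r : ℂ) * z)) → LL n t ≠ 0 := by
  obtain ⟨κ1, η, n0, h1, h2, h3, h4⟩ := nl (rt lapQ) κ R hκ0 hκ1 hR
  refine ⟨η, n0, h3, fun n t r hn hr hQ h0 => ?_⟩
  have hsc : ∀ m : ℕ, iteratedDeriv m (fun z => Gt t ((r : ℂ) * z)) 0 =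
      (r : ℂ) ^ m * iteratedDeriv m (Gt t) 0 := by
    intro m
    rw [iteratedDeriv_comp_const_mul (Gt_diff t).contDiff]
    simp
  have h5 := h4 (2 * n) _ (by omega) hQ 0 (by rw [abs_zero]; exact h1.le) (by
    rw [Complex.ofReal_zero, hsc]
    unfold LL at h0
    rcases div_eq_zero_iff.1 h0 with h | h
    · rw [h, mul_zero]
    · exact absurd h (by exact_mod_cast (2 * n).factorial_ne_zero))
  apply h5.2
  rw [Complex.ofReal_zero, hsc, odd_zero, mul_zero]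

/-- bounds for the factor -/
theorem fac {ζ w : ℂ} {δ : ℝ} (hδ : δ ≤ 1 / 8) (hδ0 : 0 ≤ δ) (hζ : ‖ζ‖ ≤ δ) (hw : 1 / 2 ≤ ‖w‖) :
    w ≠ 0 ∧ w ^ 2 - ζ ≠ 0 ∧ 1 / 8 ≤ ‖w ^ 2 - ζ‖ ∧ ‖w ^ 2 / (w ^ 2 - ζ)‖ ≤ Real.exp (8 * δ) := by
  have hw0 : w ≠ 0 := by
    intro h
    rw [h, norm_zero] at hw
    norm_num at hw
  have h1 : 1 / 4 ≤ ‖w‖ ^ 2 := by nlinarith
  have h2 : ‖w‖ ^ 2 - δ ≤ ‖w ^ 2 - ζ‖ := by
    have := norm_sub_norm_le (w ^ 2) ζ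
    rw [norm_pow] at this
    linarith
  have h3 : 1 / 8 ≤ ‖w ^ 2 - ζ‖ := by linarith
  have hne : w ^ 2 - ζ ≠ 0 := by
    rw [← norm_pos_iff]
    linarith
  refine ⟨hw0, hne, h3, ?_⟩
  rw [norm_div, norm_pow, div_le_iff₀ (by linarith)]
  have h4 : 1 + 8 * δ ≤ Real.exp (8 * δ) := by
    have := Real.add_one_le_exp (8 * δ)
    linarith
  have h5 : ‖w‖ ^ 2 ≤ (1 + 8 * δ) * (‖w‖ ^ 2 - δ) := by nlinarith
  calc ‖w‖ ^ 2 ≤ (1 + 8 * δ) * (‖w‖ ^ 2 - δ) := h5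
    _ ≤ Real.exp (8 * δ) * ‖w ^ 2 - ζ‖ := by
      have : 0 ≤ ‖w‖ ^ 2 - δ := by linarith
      gcongr

theorem fac_one {ζ : ℂ} {δ : ℝ} (hδ : δ ≤ 1 / 8) (hζ : ‖ζ‖ ≤ δ) :
    Real.exp (-δ) ≤ ‖(1 : ℂ) ^ 2 / ((1 : ℂ) ^ 2 - ζ)‖ := by
  rw [one_pow, norm_div, norm_one, Real.exp_neg, one_div]
  have h1 : ‖(1 : ℂ) - ζ‖ ≤ Real.exp δ := by
    refine (norm_sub_le _ _).trans ?_
    rw [norm_one]
    have := Real.add_one_le_exp δ
    linarith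
  have h2 : 0 < ‖(1 : ℂ) - ζ‖ := by
    have := norm_sub_norm_le (1 : ℂ) ζ
    rw [norm_one] at this
    linarith
  exact inv_anti₀ h2 h1

theorem fac_log {ζ w : ℂ} {δ : ℝ} (hδ : δ ≤ 1 / 8) (hδ0 : 0 ≤ δ) (hζ : ‖ζ‖ ≤ δ) (hw : 1 / 2 ≤ ‖w‖) (n : ℕ) :
    DifferentiableAt ℂ (fun v : ℂ => (v ^ 2 / (v ^ 2 - ζ)) ^ (n + 1)) w ∧
    (w ^ 2 / (w ^ 2 - ζ)) ^ (n + 1) ≠ 0 ∧
    ‖logDeriv (fun v : ℂ => (v ^ 2 / (v ^ 2 - ζ)) ^ (n + 1)) w‖ ≤ 32 * (n + 1) * δ := by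
  obtain ⟨h0, h1, h2, -⟩ := fac hδ hδ0 hζ hw
  have hd1 : DifferentiableAt ℂ (fun v : ℂ => v ^ 2) w := (differentiableAt_id).pow 2
  have hd2 : DifferentiableAt ℂ (fun v : ℂ => v ^ 2 - ζ) w := hd1.sub_const _
  have hd3 : DifferentiableAt ℂ (fun v : ℂ => v ^ 2 / (v ^ 2 - ζ)) w := hd1.div hd2 h1
  have hne : w ^ 2 / (w ^ 2 - ζ) ≠ 0 := div_ne_zero (pow_ne_zero 2 h0) h1
  refine ⟨hd3.pow (n + 1), pow_ne_zero _ hne, ?_⟩
  have hH : HasDerivAt (fun v : ℂ => (v ^ 2 / (v ^ 2 - ζ)) ^ (n + 1))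
      (((n + 1 : ℕ) : ℂ) * (w ^ 2 / (w ^ 2 - ζ)) ^ n *
        ((2 * w * (w ^ 2 - ζ) - w ^ 2 * (2 * w)) / (w ^ 2 - ζ) ^ 2)) w := by
    have a1 : HasDerivAt (fun v : ℂ => v ^ 2) (2 * w) w := by
      simpa using hasDerivAt_pow 2 w
    have a2 : HasDerivAt (fun v : ℂ => v ^ 2 - ζ) (2 * w) w := a1.sub_const ζ
    have a3 := (a1.fun_div a2 h1).fun_pow (n + 1)
    simpa using a3
  have e : logDeriv (fun v : ℂ => (v ^ 2 / (v ^ 2 - ζ)) ^ (n + 1)) w =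
      -(2 * ((n + 1 : ℕ) : ℂ) * ζ) / (w * (w ^ 2 - ζ)) := by
    rw [logDeriv_apply, hH.deriv]
    have hq := pow_ne_zero n hne
    show ((n + 1 : ℕ) : ℂ) * (w ^ 2 / (w ^ 2 - ζ)) ^ n *
      ((2 * w * (w ^ 2 - ζ) - w ^ 2 * (2 * w)) / (w ^ 2 - ζ) ^ 2) / (w ^ 2 / (w ^ 2 - ζ)) ^ (n + 1) = _
    rw [pow_succ (w ^ 2 / (w ^ 2 - ζ)) n]
    generalize (w ^ 2 / (w ^ 2 - ζ)) ^ n = q at hq
    field_simp
    ring
  rw [e, norm_div, norm_neg, norm_mul, norm_mul, norm_mul, Complex.norm_ofNat, Complex.norm_natCast,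
    div_le_iff₀ (by positivity)]
  have h3 : 1 / 16 ≤ ‖w‖ * ‖w ^ 2 - ζ‖ := by nlinarith
  have h4 : (0 : ℝ) ≤ n := Nat.cast_nonneg n
  push_cast
  calc 2 * ((n : ℝ) + 1) * ‖ζ‖ ≤ 2 * ((n : ℝ) + 1) * δ := by gcongr
    _ = 32 * (n + 1) * δ * (1 / 16) := by ring
    _ ≤ 32 * (n + 1) * δ * (‖w‖ * ‖w ^ 2 - ζ‖) := by gcongr

end Pool.Agent.TH231.LG
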