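import Pool.Agent.TH231.LG.WinL

/-!
The window for the derivatives of `Ft t` in the unit disc.
-/

set_option autoImplicit false

namespace Pool.Agent.TH231.LG

open Complex Filter Topology MeasureTheory Set
open Pool.Agent.H24R2.JP (XX HH Om FF Par gam)
open Pool.Agent.H986R2.K4

set_option maxHeartbeats 4000000 in
open RTAux in
theorem W2 {κ R : ℝ} (hκ0 : 0 < κ) (hκ1 : κ ≤ 1 / 2) (hR : 3 ≤ R) :
    ∃ δ η : ℝ, ∃ n0 : ℕ, 0 < δ ∧ 0 < η ∧ ∀ (n : ℕ) (G : ℂ → ℂ), n0 ≤ n → QQ κ R (2 * n) η G →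
      ∀ ζ : ℂ, ‖ζ‖ ≤ δ → ∫ φ in (-(Real.pi / 2))..(Real.pi / 2),
        G (cexp (I * φ)) * cexp (I * φ) ^ 2 / (cexp (I * φ) ^ 2 - ζ) ^ (n + 1) ≠ 0 := by
  obtain ⟨d, hdd⟩ : ∃ d, d = κ / 2 / 5 := ⟨_, rfl⟩
  have hκ : κ = 10 * d := by rw [hdd]; ring
  have hd0 : 0 < d := by rw [hdd]; positivity
  have hd : d ≤ 1 / 20 := by rw [hdd]; linarith
  obtain ⟨d1, d2, d3, d4, d5⟩ := dd hd0 hd
  obtain ⟨η0, c, C, n0, hη0, hcp, hC, hn0, hL⟩ := lapQ (κ / 2) (d ^ 3 / 10) (by positivity)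
    (by linarith) (by positivity) (by rw [hκ]; nlinarith)
  rw [← hdd] at hL
  have hδ' : 0 < d ^ 2 / 8 := by positivity
  obtain ⟨n1, hn1, hlarge⟩ := large c C (d ^ 2 / 8) hcp hδ'
  obtain ⟨δ, hδ⟩ : ∃ δ : ℝ, δ = min (η0 / 64) (d ^ 2 / 1000) := ⟨_, rfl⟩
  have hδ0 : 0 < δ := by rw [hδ]; positivity
  have hδ1 : δ ≤ η0 / 64 := by rw [hδ]; exact min_le_left _ _
  have hδ2 : δ ≤ d ^ 2 / 1000 := by rw [hδ]; exact min_le_right _ _
  have hδ3 : δ ≤ 1 / 8 := by linarith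
  refine ⟨δ, min (η0 / 2) (d ^ 2 / 100), max n0 n1, hδ0, by positivity, ?_⟩
  intro n G hn hN ζ hζ
  have hnn0 : n0 ≤ 2 * n := by have := (le_max_left n0 n1).trans hn; omega
  have hnn1 : n1 ≤ 2 * n := by have := (le_max_right n0 n1).trans hn; omega
  have hn1' : 1 ≤ n := by
    have := (le_max_left n0 n1).trans hn
    omega
  have hn2' : 1 ≤ 2 * n := by omega
  have hnpos : (0 : ℝ) < n := by exact_mod_cast hn1'
  have hnone : (1 : ℝ) ≤ n := by exact_mod_cast hn1'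
  have hη : 0 < min (η0 / 2) (d ^ 2 / 100) := lt_min (by positivity) (by positivity)
  have hη1 : min (η0 / 2) (d ^ 2 / 100) ≤ d ^ 2 / 100 := min_le_right _ _
  have hz : ‖(0 : ℂ)‖ ≤ d ^ 3 / 10 := by rw [norm_zero]; positivity
  obtain ⟨k, hk⟩ : ∃ k : ℂ → ℂ, k = fun v : ℂ => (v ^ 2 / (v ^ 2 - ζ)) ^ (n + 1) := ⟨_, rfl⟩
  have hkd : ∀ w : ℂ, 1 / 2 ≤ ‖w‖ → DifferentiableAt ℂ k w ∧ k w ≠ 0 ∧
      ‖logDeriv k w‖ ≤ 32 * (n + 1) * δ ∧ ‖k w‖ ≤ Real.exp (16 * δ * n) := by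
    intro w hw
    obtain ⟨a1, a2, a3⟩ := fac_log hδ3 hδ0.le hζ hw n
    obtain ⟨-, -, -, a4⟩ := fac hδ3 hδ0.le hζ hw
    refine ⟨by rw [hk]; exact a1, by rw [hk]; exact a2, by rw [hk]; exact a3, ?_⟩
    rw [hk]
    show ‖(w ^ 2 / (w ^ 2 - ζ)) ^ (n + 1)‖ ≤ _
    rw [norm_pow]
    refine (pow_le_pow_left₀ (norm_nonneg _) a4 (n + 1)).trans ?_
    rw [← Real.exp_nat_mul]
    apply Real.exp_le_exp.2
    push_cast
    nlinarith
  have hk1 : Real.exp (-(2 * δ * n)) ≤ ‖k 1‖ := by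
    rw [hk]
    show _ ≤ ‖((1 : ℂ) ^ 2 / ((1 : ℂ) ^ 2 - ζ)) ^ (n + 1)‖
    rw [norm_pow]
    refine le_trans ?_ (pow_le_pow_left₀ (Real.exp_pos _).le (fac_one hδ3 hζ) (n + 1))
    rw [← Real.exp_nat_mul]
    apply Real.exp_le_exp.2
    push_cast
    nlinarith
  have hreg : ∀ w ∈ Metric.ball ((0 : ℂ) + 1) (κ / 2), 1 - κ ≤ w.re ∧ ‖w‖ ≤ R ∧ 1 / 2 ≤ ‖w‖ := by
    intro w hw
    rw [zero_add, Metric.mem_ball, dist_eq_norm] at hw
    have h1 := abs_le.1 ((Complex.abs_re_le_norm _).trans hw.le)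
    rw [Complex.sub_re, Complex.one_re] at h1
    refine ⟨by linarith [h1.1], ?_, ?_⟩
    · have e : w = (w - 1) + 1 := by ring
      rw [e]
      refine (norm_add_le _ _).trans ?_
      rw [norm_one]
      linarith
    · have h2 := Complex.abs_re_le_norm w
      have h3 := le_abs_self w.re
      linarith [h1.1]
  obtain ⟨w0, hw0, -, hQ1, -, hQ3, hQ4⟩ := hL (2 * n) hnn0 0 (fun w => G w * k w) (by
    intro w hw
    obtain ⟨r1, r2, r3⟩ := hreg w hw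
    obtain ⟨r4, r5⟩ := hN.far w r1 r2
    obtain ⟨k1, k2, k3, -⟩ := hkd w r3
    refine ⟨(hN.diff w).mul k1, mul_ne_zero r4 k2, ?_⟩
    rw [logDeriv_mul w r4 k2 (hN.diff w) k1]
    have e : logDeriv G w + logDeriv k w - ((2 * n : ℕ) : ℂ) =
        (logDeriv G w - ((2 * n : ℕ) : ℂ)) + logDeriv k w := by ring
    rw [e]
    refine (norm_add_le _ _).trans ?_
    have b1 : min (η0 / 2) (d ^ 2 / 100) * ((2 * n : ℕ) : ℝ) ≤ η0 / 2 * ((2 * n : ℕ) : ℝ) := by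
      gcongr
      exact min_le_left _ _
    have b2 : 32 * ((n : ℝ) + 1) * δ ≤ η0 / 2 * ((2 * n : ℕ) : ℝ) := by
      push_cast
      nlinarith
    linarith)
  simp only [sub_zero] at hQ1 hQ3 hQ4
  rw [zero_add] at hQ1 hw0
  obtain ⟨l1, -⟩ := hlarge (2 * n) hnn1
  obtain ⟨Q0, hQ0⟩ : ∃ Q0, Q0 = ‖G w0 * k w0 / w0 ^ (2 * n + 1)‖ := ⟨_, rfl⟩
  rw [← hQ0] at hQ1 hQ3
  have hG1 : G 1 ≠ 0 := (hN.far 1 (by simp; linarith) (by rw [norm_one]; linarith)).1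
  have hk10 : 0 < ‖k 1‖ := lt_of_lt_of_le (Real.exp_pos _) hk1
  have hQ0pos : 0 < Q0 := by
    refine lt_of_lt_of_le ?_ hQ1
    rw [norm_mul]
    have := norm_pos_iff.2 hG1
    positivity
  -- comparison of the error with the main term
  obtain ⟨M, hM⟩ : ∃ M : ℝ, M = 2 * (Real.exp (-(d ^ 2 / 8 * ((2 * n : ℕ) : ℝ))) * Q0) := ⟨_, rfl⟩
  have hMb : 2 * (‖G (0 + 1)‖ * Real.exp (-(d ^ 2 / 5 * ((2 * n : ℕ) : ℝ)))) * Real.exp (16 * δ * n) ≤ M := by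
    have e1 : Real.exp (-(d ^ 3 / 10 * ((2 * n : ℕ) : ℝ))) * (‖G 1‖ * Real.exp (-(2 * δ * n))) ≤ Q0 := by
      refine le_trans ?_ hQ1
      rw [norm_mul]
      gcongr
    have e2 : ‖G 1‖ * Real.exp (-(d ^ 2 / 5 * ((2 * n : ℕ) : ℝ))) * Real.exp (16 * δ * n) =
        Real.exp (-(d ^ 2 / 5 * (2 * n)) + 16 * δ * n + d ^ 3 / 10 * (2 * n) + 2 * δ * n) *
        (Real.exp (-(d ^ 3 / 10 * ((2 * n : ℕ) : ℝ))) * (‖G 1‖ * Real.exp (-(2 * δ * n)))) := by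
      have e3 : Real.exp (-(d ^ 2 / 5 * (2 * n)) + 16 * δ * n + d ^ 3 / 10 * (2 * n) + 2 * δ * n) *
          (Real.exp (-(d ^ 3 / 10 * ((2 * n : ℕ) : ℝ))) * Real.exp (-(2 * δ * n))) =
          Real.exp (-(d ^ 2 / 5 * ((2 * n : ℕ) : ℝ))) * Real.exp (16 * δ * n) := by
        rw [← Real.exp_add, ← Real.exp_add, ← Real.exp_add]
        congr 1
        push_cast
        ring
      calc ‖G 1‖ * Real.exp (-(d ^ 2 / 5 * ((2 * n : ℕ) : ℝ))) * Real.exp (16 * δ * n)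
          = ‖G 1‖ * (Real.exp (-(d ^ 2 / 5 * ((2 * n : ℕ) : ℝ))) * Real.exp (16 * δ * n)) := by ring
        _ = _ := by rw [← e3]; ring
    rw [zero_add, mul_assoc, e2, hM]
    have e4 : Real.exp (-(d ^ 2 / 5 * (2 * n)) + 16 * δ * n + d ^ 3 / 10 * (2 * n) + 2 * δ * n) ≤
        Real.exp (-(d ^ 2 / 8 * ((2 * n : ℕ) : ℝ))) := by
      apply Real.exp_le_exp.2
      push_cast
      have e5 : -(d ^ 2 / 5 * 2) + 16 * δ + d ^ 3 / 10 * 2 + 2 * δ ≤ -(d ^ 2 / 8 * 2) := by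
        linarith
      nlinarith
    gcongr
  have hM0 : 0 ≤ M := by rw [hM]; positivity
  have hnm : ∀ φ : ℝ, ‖cexp (I * φ)‖ = 1 := by
    intro φ
    rw [mul_comm]; exact Complex.norm_exp_ofReal_mul_I φ
  have hseglow : ∀ σ : ℝ, (σ = 1 ∨ σ = -1) →
      ∀ w ∈ segment ℝ (w0 + I * ((σ * d : ℝ) : ℂ)) (cexp (I * ((σ * d : ℝ) : ℂ))),
      1 / 2 ≤ ‖w‖ := by
    intro σ hσ w hw
    have hσa : |σ * d| ≤ d := by
      rcases hσ with rfl | rfl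
      · rw [one_mul, abs_of_pos hd0]
      · rw [neg_one_mul, abs_neg, abs_of_pos hd0]
    have b1 : w0 + I * ((σ * d : ℝ) : ℂ) ∈ Metric.ball (1 : ℂ) (1 / 2) := by
      rw [Metric.mem_ball, dist_eq_norm]
      have e : w0 + I * ((σ * d : ℝ) : ℂ) - 1 = (w0 - 1) + I * ((σ * d : ℝ) : ℂ) := by ring
      rw [e]
      refine (norm_add_le _ _).trans_lt ?_
      rw [norm_mul, Complex.norm_I, one_mul, Complex.norm_real, Real.norm_eq_abs]
      linarith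
    have b2 : cexp (I * ((σ * d : ℝ) : ℂ)) ∈ Metric.ball (1 : ℂ) (1 / 2) := by
      rw [Metric.mem_ball, dist_eq_norm]
      have := Real.norm_exp_I_mul_ofReal_sub_one_le (x := σ * d)
      rw [Real.norm_eq_abs] at this
      linarith
    have hwb := (convex_ball (1 : ℂ) (1 / 2)).segment_subset b1 b2 hw
    rw [Metric.mem_ball, dist_eq_norm] at hwb
    have h1 := norm_sub_norm_le (1 : ℂ) (1 - w)
    have h2 : (1 : ℂ) - (1 - w) = w := by ring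
    rw [h2, norm_one, norm_sub_rev] at h1
    linarith
  have D1 := deform (n := 2 * n) (F := G) (k := k) (z := 0) (w0 := w0)
    (M := M) hN.diff hd0 hd (by rw [norm_zero]; norm_num) (by rw [zero_add]; linarith) hM0
    (fun w hw => (hkd w (by rwa [sub_zero] at hw)).1)
    (fun φ h1 h2 => by
      rw [norm_mul]
      refine le_trans ?_ hMb
      exact mul_le_mul (arcb hκ hd0 hd hR hη hη1 hn2' hN hz h1 h2)
        (hkd _ (by rw [hnm]; norm_num)).2.2.2 (norm_nonneg _) (by positivity))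
    (fun σ hσ w hw => by
      rw [norm_mul]
      refine le_trans ?_ hMb
      exact mul_le_mul (segb hκ hd0 hd hR hη hη1 hn2' hN hz (by rw [zero_add]; exact hw0) hσ hw)
        (hkd _ (hseglow σ hσ w hw)).2.2.2 (norm_nonneg _) (by positivity))
  simp only [sub_zero] at D1
  -- identification of the integrals
  have hI1 : (∫ φ in (-(Real.pi / 2))..(Real.pi / 2),
      G (cexp (I * φ)) / cexp (I * φ) ^ (2 * n + 1) * k (cexp (I * φ)) * cexp (I * φ)) =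
      ∫ φ in (-(Real.pi / 2))..(Real.pi / 2),
        G (cexp (I * φ)) * cexp (I * φ) ^ 2 / (cexp (I * φ) ^ 2 - ζ) ^ (n + 1) := by
    apply intervalIntegral.integral_congr
    intro φ _
    obtain ⟨a1, a2, -, -⟩ := fac hδ3 hδ0.le hζ (w := cexp (I * φ)) (by rw [hnm]; norm_num)
    simp only [hk]
    generalize cexp (I * φ) = e at a1 a2
    rw [div_pow, ← pow_mul, show 2 * (n + 1) = (2 * n + 1) + 1 by ring, pow_succ e (2 * n + 1)]
    have h1 : e ^ (2 * n + 1) ≠ 0 := pow_ne_zero _ a1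
    have h2 : (e ^ 2 - ζ) ^ (n + 1) ≠ 0 := pow_ne_zero _ a2
    generalize e ^ (2 * n + 1) = p at h1
    generalize (e ^ 2 - ζ) ^ (n + 1) = q at h2
    field_simp
  have hI2 : (∫ y in (-d)..d, G (w0 + I * y) / (w0 + I * y) ^ (2 * n + 1) * k (w0 + I * y)) =
      ∫ y in (-d)..d, G (w0 + I * y) * k (w0 + I * y) / (w0 + I * y) ^ (2 * n + 1) := by
    apply intervalIntegral.integral_congr
    intro y _
    simp only
    ring
  rw [hI1, hI2] at D1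
  intro hzero
  rw [hzero, zero_sub, norm_neg] at D1
  have h1 : c / Real.sqrt ((2 * n : ℕ) : ℝ) * Q0 ≤ 8 * M := hQ3.trans D1
  have h2 : 8 * M ≤ 1 / 2 * (c / (2 * Real.sqrt ((2 * n : ℕ) : ℝ))) * Q0 := by
    rw [hM]
    calc 8 * (2 * (Real.exp (-(d ^ 2 / 8 * ((2 * n : ℕ) : ℝ))) * Q0))
        = 1 / 2 * (32 * Real.exp (-(d ^ 2 / 8 * ((2 * n : ℕ) : ℝ)))) * Q0 := by ring
      _ ≤ _ := by gcongr
  have hs : 0 < Real.sqrt ((2 * n : ℕ) : ℝ) := Real.sqrt_pos.2 (by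
    push_cast
    positivity)
  have h3 : 1 / 2 * (c / (2 * Real.sqrt ((2 * n : ℕ) : ℝ))) * Q0 =
      1 / 4 * (c / Real.sqrt ((2 * n : ℕ) : ℝ) * Q0) := by
    field_simp
    norm_num
  have h4 : 0 < c / Real.sqrt ((2 * n : ℕ) : ℝ) * Q0 := by positivity
  rw [h3] at h2
  linarith

end Pool.Agent.TH231.LG
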