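import Pool.Agent.TH231.LG.WinM

/-!
No zeros of the coefficients `LL m t` for `m ≥ r0 * Om t`.
-/

set_option autoImplicit false

namespace Pool.Agent.TH231.LG

open Complex Filter Topology MeasureTheory Set
open Pool.Agent.H24R2.JP (XX HH Om FF Par gam)
open Pool.Agent.H986R2.K4

/-- Cauchy's formula for the derivatives of `Ft t`, as an integral over a half circle. -/
theorem cauchy_half {t r : ℝ} (hr : 0 < r) {Y : ℂ} (hY : ‖Y‖ < r ^ 2) (n : ℕ)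
    (h0 : iteratedDeriv n (Ft t) Y = 0) :
    ∫ φ in (-(Real.pi / 2))..(Real.pi / 2), Gt t ((r : ℂ) * cexp (I * φ)) * cexp (I * φ) ^ 2 /
      (cexp (I * φ) ^ 2 - Y / ((r : ℂ) ^ 2)) ^ (n + 1) = 0 := by
  have hr2 : 0 < r ^ 2 := by positivity
  have hrc : (r : ℂ) ≠ 0 := by exact_mod_cast hr.ne'
  obtain ⟨f, hf⟩ : ∃ f : ℝ → ℂ, f = fun θ : ℝ => Ft t (((r ^ 2 : ℝ) : ℂ) * cexp (I * θ)) *
      (((r ^ 2 : ℝ) : ℂ) * cexp (I * θ)) / (((r ^ 2 : ℝ) : ℂ) * cexp (I * θ) - Y) ^ (n + 1) := ⟨_, rfl⟩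
  have hnm : ∀ φ : ℝ, ‖cexp (I * φ)‖ = 1 := by
    intro φ
    rw [mul_comm]; exact Complex.norm_exp_ofReal_mul_I φ
  have hden : ∀ θ : ℝ, ((r ^ 2 : ℝ) : ℂ) * cexp (I * θ) - Y ≠ 0 := by
    intro θ h
    have h1 : ‖((r ^ 2 : ℝ) : ℂ) * cexp (I * θ)‖ = ‖Y‖ := by rw [sub_eq_zero.1 h]
    rw [norm_mul, hnm, mul_one, Complex.norm_real, Real.norm_eq_abs, abs_of_pos hr2] at h1
    linarith
  have hcont : Continuous f := by
    rw [hf]
    have h1 : Continuous fun θ : ℝ => ((r ^ 2 : ℝ) : ℂ) * cexp (I * θ) := by fun_prop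
    exact (((Ft_diff t).continuous.comp h1).mul h1).div ((h1.sub continuous_const).pow _)
      (fun θ => pow_ne_zero _ (hden θ))
  have harc := (Pool.Agent.H24R2.JP.arcS (Ft t) n 0 (r ^ 2) Y hr2
    (fun ξ _ => (Ft_diff t) ξ) (by simpa using hY)).1
  rw [h0] at harc
  unfold Pool.Agent.H24R2.JP.arc at harc
  simp only [Complex.ofReal_zero, zero_add] at harc
  have harc2 : (n.factorial : ℂ) / (2 * Real.pi) * ∫ θ in (0 : ℝ)..(2 * Real.pi), f θ = 0 := by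
    rw [← intervalIntegral.integral_add_adjacent_intervals (b := Real.pi) (hcont.intervalIntegrable _ _)
      (hcont.intervalIntegrable _ _), mul_add, hf]
    exact harc.symm
  have hfac : (n.factorial : ℂ) / (2 * Real.pi) ≠ 0 := by
    apply div_ne_zero
    · exact_mod_cast n.factorial_ne_zero
    · exact mul_ne_zero two_ne_zero (by exact_mod_cast Real.pi_ne_zero)
  have h1 : ∫ θ in (0 : ℝ)..(2 * Real.pi), f θ = 0 := by
    rcases mul_eq_zero.1 harc2 with h | h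
    · exact absurd h hfac
    · exact h
  have hper : Function.Periodic f (2 * Real.pi) := by
    intro θ
    rw [hf]
    have e : cexp (I * ((θ + 2 * Real.pi : ℝ) : ℂ)) = cexp (I * θ) := by
      have : I * ((θ + 2 * Real.pi : ℝ) : ℂ) = I * θ + 2 * Real.pi * I := by push_cast; ring
      rw [this, Complex.exp_add, Complex.exp_two_pi_mul_I, mul_one]
    simp only [e]
  have h2 : ∫ θ in (-Real.pi)..Real.pi, f θ = 0 := by
    have h3 := hper.intervalIntegral_add_eq 0 (-Real.pi)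
    rw [zero_add, h1] at h3
    rw [h3]
    congr 1
    ring
  have h3 : ∫ φ in (-(Real.pi / 2))..(Real.pi / 2), f (2 * φ) = 0 := by
    have h4 := intervalIntegral.integral_comp_mul_left (a := -(Real.pi / 2)) (b := Real.pi / 2) f
      (c := 2) two_ne_zero
    rw [h4]
    have e1 : 2 * -(Real.pi / 2) = -Real.pi := by ring
    have e2 : 2 * (Real.pi / 2) = Real.pi := by ring
    rw [e1, e2, h2, smul_zero]
  have h4 : ∀ φ : ℝ, Gt t ((r : ℂ) * cexp (I * φ)) * cexp (I * φ) ^ 2 /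
      (cexp (I * φ) ^ 2 - Y / ((r : ℂ) ^ 2)) ^ (n + 1) = (r : ℂ) ^ (2 * n) * f (2 * φ) := by
    intro φ
    have e1 : cexp (I * ((2 * φ : ℝ) : ℂ)) = cexp (I * φ) ^ 2 := by
      rw [← Complex.exp_nat_mul]
      congr 1
      push_cast
      ring
    have e2 : ((r ^ 2 : ℝ) : ℂ) * cexp (I * φ) ^ 2 = ((r : ℂ) * cexp (I * φ)) ^ 2 := by
      push_cast
      ring
    have e3 := hden (2 * φ)
    rw [e1, e2] at e3
    rw [hf]
    simp only [e1, e2]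
    rw [Ft_sq]
    have e4 : cexp (I * φ) ^ 2 - Y / ((r : ℂ) ^ 2) = (((r : ℂ) * cexp (I * φ)) ^ 2 - Y) / (r : ℂ) ^ 2 := by
      field_simp
    rw [e4, div_pow]
    have e5 := pow_ne_zero (n + 1) e3
    generalize (((r : ℂ) * cexp (I * φ)) ^ 2 - Y) ^ (n + 1) = q at e5
    generalize Gt t ((r : ℂ) * cexp (I * φ)) = g
    field_simp
    ring
  simp only [h4]
  rw [intervalIntegral.integral_const_mul, h3, mul_zero]

theorem Om_tendsto : Tendsto Om atTop atTop := by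
  unfold Om
  exact Real.tendsto_log_atTop.atTop_div_const two_pos

/-- the window for `LL` -/
theorem win_small {y r0 r1 : ℝ} (hy0 : 0 ≤ y) (hy1 : y ≤ 1 / 2) (hZ : ZB y) (hyr : y < r0) (hr : r0 ≤ r1) :
    ∃ T0 : ℝ, 2 ≤ T0 ∧ ∀ (t : ℝ) (n : ℕ), T0 ≤ t → r0 * Om t ≤ n → (n : ℝ) ≤ r1 * Om t → LL n t ≠ 0 := by
  have hr0 : 0 < r0 := by linarith
  obtain ⟨κ, hκ0, hκ1, h⟩ := normW hh (pl hh) y r0 hy0 hy1 hZ hyr
  obtain ⟨η, n0, hη, hW⟩ := W1 (κ := κ) (R := 3) hκ0 hκ1 le_rfl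
  obtain ⟨T1, hT1, hQ⟩ := h r1 3 η hr le_rfl hη
  obtain ⟨T2, hT2⟩ := eventually_atTop.1 (Om_tendsto.eventually (eventually_ge_atTop (((n0 : ℝ) + 1) / r0)))
  refine ⟨max T1 T2, hT1.trans (le_max_left _ _), fun t n ht h1 h2 => ?_⟩
  have hO := hT2 t ((le_max_right _ _).trans ht)
  have hOm : ((n0 : ℝ) + 1) ≤ r0 * Om t := by
    rw [div_le_iff₀ hr0] at hO
    linarith
  have hn : n0 ≤ n := by
    have : (n0 : ℝ) ≤ n := by linarith
    exact_mod_cast this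
  have hOm0 : 0 < Om t := by
    by_contra hneg
    push Not at hneg
    have : r0 * Om t ≤ 0 := mul_nonpos_of_nonneg_of_nonpos hr0.le hneg
    have : (0 : ℝ) ≤ n0 := Nat.cast_nonneg _
    linarith
  have hnpos : (0 : ℝ) < n := by
    have : (0 : ℝ) ≤ n0 := Nat.cast_nonneg _
    linarith
  refine hW n t (n / Om t) hn (by positivity) ?_
  have := W0 (hQ t n ((le_max_left _ _).trans ht) h1 h2)
  rw [Gt_scale] at this
  exact this

/-- the window for the unit disc -/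
theorem win_large : ∃ R1 T0 : ℝ, 1 ≤ R1 ∧ 2 ≤ T0 ∧ ∀ (t : ℝ) (n : ℕ), T0 ≤ t → R1 * Om t ≤ n →
    (n : ℝ) ≤ 2 * R1 * Om t → ∀ Y : ℂ, ‖Y‖ ≤ 1 → iteratedDeriv n (Ft t) Y ≠ 0 := by
  obtain ⟨κ, hκ0, hκ1, h⟩ := normW hh (pl hh) (1 / 2) 1 (by norm_num) le_rfl a1 (by norm_num)
  obtain ⟨δ, η, n0, hδ, hη, hW⟩ := W2 (κ := κ) (R := 3) hκ0 hκ1 le_rfl
  obtain ⟨R1, hR1⟩ : ∃ R1 : ℝ, R1 = 2 + 1 / δ := ⟨_, rfl⟩
  have hδi : 0 < 1 / δ := by positivity
  have hR2 : 2 ≤ R1 := by rw [hR1]; linarith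
  have hRδ : 1 / R1 ^ 2 ≤ δ := by
    rw [div_le_iff₀ (by positivity)]
    have h1 : 1 = δ * (1 / δ) := by field_simp
    have h2 : 1 / δ ≤ R1 := by rw [hR1]; linarith
    have h3 : R1 ≤ R1 ^ 2 := by nlinarith
    calc 1 = δ * (1 / δ) := h1
      _ ≤ δ * R1 ^ 2 := by
        gcongr
        linarith
  obtain ⟨T1, hT1, hQ⟩ := h (2 * R1) 3 η (by linarith) le_rfl hη
  obtain ⟨T2, hT2⟩ := eventually_atTop.1 (Om_tendsto.eventually (eventually_ge_atTop ((n0 : ℝ) + 1)))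
  refine ⟨R1, max T1 T2, by linarith, hT1.trans (le_max_left _ _), fun t n ht h1 h2 Y hY h0 => ?_⟩
  have hO := hT2 t ((le_max_right _ _).trans ht)
  have hn0 : (0 : ℝ) ≤ n0 := Nat.cast_nonneg _
  have hOm0 : 0 < Om t := by linarith
  have hOn : Om t ≤ n := by nlinarith
  have hn : n0 ≤ n := by
    have : (n0 : ℝ) ≤ n := by linarith
    exact_mod_cast this
  have hnpos : (0 : ℝ) < n := by linarith
  obtain ⟨r, hr⟩ : ∃ r : ℝ, r = n / Om t := ⟨_, rfl⟩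
  have hr1 : R1 ≤ r := by
    rw [hr, le_div_iff₀ hOm0]
    exact h1
  have hr0 : 0 < r := by linarith
  have hq := W0 (hQ t n ((le_max_left _ _).trans ht) (by nlinarith) h2)
  rw [Gt_scale, ← hr] at hq
  have hYr : ‖Y‖ < r ^ 2 := by nlinarith
  refine hW n _ hn hq (Y / ((r : ℂ) ^ 2)) ?_ (cauchy_half hr0 hYr n h0)
  rw [norm_div, norm_pow, Complex.norm_real, Real.norm_eq_abs, abs_of_pos hr0]
  refine le_trans ?_ hRδ
  gcongr

/-- For `t ≥ T0` all coefficients with `m ≥ r0 Om t` are nonzero. -/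
theorem nonvan {y r0 : ℝ} (hy0 : 0 ≤ y) (hy1 : y ≤ 1 / 2) (hZ : ZB y) (hyr : y < r0) :
    ∃ T0 : ℝ, 2 ≤ T0 ∧ ∀ (t : ℝ) (m : ℕ), T0 ≤ t → r0 * Om t ≤ m → LL m t ≠ 0 := by
  obtain ⟨R1, T1, hR1, hT1, hL⟩ := win_large
  obtain ⟨T2, hT2, hS⟩ := win_small (r1 := max r0 (2 * R1)) hy0 hy1 hZ hyr (le_max_left _ _)
  obtain ⟨T3, hT3⟩ := eventually_atTop.1 (Om_tendsto.eventually (eventually_ge_atTop (1 : ℝ)))
  refine ⟨max T1 (max T2 T3), hT1.trans (le_max_left _ _), fun t m ht hm => ?_⟩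
  have ht1 : T1 ≤ t := (le_max_left _ _).trans ht
  have ht2 : T2 ≤ t := ((le_max_left _ _).trans (le_max_right _ _)).trans ht
  have ht3 : T3 ≤ t := ((le_max_right _ _).trans (le_max_right _ _)).trans ht
  have hO := hT3 t ht3
  rcases le_or_gt (m : ℝ) (2 * R1 * Om t) with h | h
  · refine hS t m ht2 hm (h.trans ?_)
    exact mul_le_mul_of_nonneg_right (le_max_right _ _) (by linarith)
  · obtain ⟨n, hn⟩ : ∃ n : ℕ, n = ⌈R1 * Om t⌉₊ := ⟨_, rfl⟩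
    have hx : 1 ≤ R1 * Om t := by nlinarith
    have h1 : R1 * Om t ≤ n := by rw [hn]; exact Nat.le_ceil _
    have h2 : (n : ℝ) < R1 * Om t + 1 := by rw [hn]; exact Nat.ceil_lt_add_one (by linarith)
    have h3 : (n : ℝ) ≤ 2 * R1 * Om t := by linarith
    have h4 : n ≤ m := by
      have : (n : ℝ) ≤ m := by linarith
      exact_mod_cast this
    exact LL_ne_of (hL t n ht1 h1 h3) h4

/-- Uniform version. -/
theorem nonvan2 {y κ : ℝ} (hy0 : 0 ≤ y) (hy1 : y ≤ 1 / 2) (hZ : ZB y) (hκ : κ * y < 2) :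
    ∃ N : ℕ, ∀ n : ℕ, N ≤ n → ∀ t : ℝ, 0 ≤ t → t ≤ Real.exp (κ * n) → LL n t ≠ 0 := by
  -- choose r0
  obtain ⟨r0, hr0, hκr⟩ : ∃ r0 : ℝ, y < r0 ∧ κ * r0 ≤ 2 := by
    rcases le_or_gt κ 0 with h | h
    · exact ⟨y + 1, by linarith, by nlinarith⟩
    · refine ⟨2 / κ, ?_, ?_⟩
      · rw [lt_div_iff₀ h]
        linarith
      · rw [mul_div_cancel₀ _ h.ne']
  obtain ⟨T0, hT0, h1⟩ := nonvan hy0 hy1 hZ hr0
  obtain ⟨N, hN⟩ := cpt T0
  refine ⟨N, fun n hn t ht0 ht => ?_⟩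
  rcases le_total t T0 with h | h
  · exact hN t ⟨ht0, h⟩ n hn
  · refine h1 t n h ?_
    have htpos : 0 < t := by linarith
    have h2 : Real.log t ≤ κ * n := by
      rw [← Real.log_exp (κ * n)]
      exact Real.log_le_log htpos ht
    have hr00 : 0 < r0 := by linarith
    unfold Om
    calc r0 * (Real.log t / 2) ≤ r0 * (κ * n / 2) := by gcongr
      _ = (κ * r0) * n / 2 := by ring
      _ ≤ 2 * n / 2 := by
        have : (0 : ℝ) ≤ n := Nat.cast_nonneg n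
        gcongr
      _ = n := by ring

end Pool.Agent.TH231.LG
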